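import Mathlib

/-!
Arguments of quotients of two elements of a sector.
-/

namespace Pool.Agent.Helper36.SC

open ComplexConjugate

/-- membership in the sector of half angle `π / 2 - φ` -/
def InSector (φ : ℝ) (z : ℂ) : Prop :=
  0 ≤ z.re ∧ 0 ≤ (Complex.exp (φ * Complex.I) * z).re ∧
    0 ≤ (Complex.exp (-φ * Complex.I) * z).re

theorem InSector.add {φ : ℝ} {z w : ℂ} (hz : InSector φ z) (hw : InSector φ w) :
    InSector φ (z + w) := by
  refine ⟨?_, ?_, ?_⟩
  · rw [Complex.add_re]; exact add_nonneg hz.1 hw.1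
  · rw [mul_add, Complex.add_re]; exact add_nonneg hz.2.1 hw.2.1
  · rw [mul_add, Complex.add_re]; exact add_nonneg hz.2.2 hw.2.2

theorem InSector.smul {φ : ℝ} {z : ℂ} (hz : InSector φ z) {c : ℝ} (hc : 0 ≤ c) :
    InSector φ (c * z) := by
  refine ⟨?_, ?_, ?_⟩
  · rw [Complex.re_ofReal_mul]; exact mul_nonneg hc hz.1
  · rw [mul_left_comm, Complex.re_ofReal_mul]; exact mul_nonneg hc hz.2.1
  · rw [mul_left_comm, Complex.re_ofReal_mul]; exact mul_nonneg hc hz.2.2

theorem exp_conj (φ : ℝ) : conj (Complex.exp (φ * Complex.I)) = Complex.exp (-φ * Complex.I) := by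
  rw [← Complex.exp_conj]
  congr 1
  simp

theorem InSector.conj {φ : ℝ} {z : ℂ} (hz : InSector φ z) : InSector φ (conj z) := by
  have e1 : ∀ w : ℂ, (starRingEnd ℂ w).re = w.re := fun w => rfl
  refine ⟨hz.1, ?_, ?_⟩
  · have h1 := hz.2.2
    rw [← exp_conj, ← e1, map_mul, Complex.conj_conj] at h1
    exact h1
  · have h1 := hz.2.1
    rw [← e1, map_mul, exp_conj] at h1
    exact h1

theorem InSector.abs_arg {φ : ℝ} (hφ0 : 0 < φ) (hφ : φ ≤ Real.pi / 2) {z : ℂ} (hz : InSector φ z)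
    (h0 : z ≠ 0) : |z.arg| ≤ Real.pi / 2 - φ := by
  have hn : 0 < ‖z‖ := norm_pos_iff.mpr h0
  have ha : |z.arg| ≤ Real.pi / 2 := Complex.abs_arg_le_pi_div_two_iff.mpr hz.1
  have ha2 := abs_le.mp ha
  have hz1 : z = ‖z‖ * Complex.exp (z.arg * Complex.I) := (Complex.norm_mul_exp_arg_mul_I z).symm
  have hcos : ∀ θ : ℝ, 0 ≤ (Complex.exp (θ * Complex.I) * z).re → 0 ≤ Real.cos (θ + z.arg) := by
    intro θ h
    have e : Complex.exp (θ * Complex.I) * z =
        (‖z‖ : ℂ) * Complex.exp (((θ + z.arg : ℝ) : ℂ) * Complex.I) := by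
      conv_lhs => rw [hz1]
      rw [mul_left_comm, ← Complex.exp_add]
      congr 2
      push_cast
      ring
    rw [e, Complex.re_ofReal_mul, Complex.exp_ofReal_mul_I_re] at h
    exact nonneg_of_mul_nonneg_right h hn
  have h1 := hcos φ hz.2.1
  have h2 := hcos (-φ) (by
    have := hz.2.2
    simpa using this)
  rw [abs_le]
  constructor
  · by_contra hlt
    push Not at hlt
    have : Real.cos (-φ + z.arg) < 0 := by
      rw [← Real.cos_neg]
      apply Real.cos_neg_of_pi_div_two_lt_of_lt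
      · linarith
      · linarith [Real.pi_pos]
    linarith
  · by_contra hlt
    push Not at hlt
    have : Real.cos (φ + z.arg) < 0 := by
      apply Real.cos_neg_of_pi_div_two_lt_of_lt
      · linarith
      · linarith [Real.pi_pos]
    linarith

/-- if `P + conj t * Q = 0` with `P, Q` in the sector and `Q ≠ 0`, `t ≠ 0`, then
`-t` has argument at most `π - 2 φ` -/
theorem arg_bound {φ : ℝ} (hφ0 : 0 < φ) (hφ : φ ≤ Real.pi / 2) {P Q x : ℂ} (hP : InSector φ P)
    (hQ : InSector φ Q) (hQ0 : Q ≠ 0) (hx : x ≠ 0) (h : P = conj x * Q) :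
    |x.arg| ≤ Real.pi - 2 * φ := by
  have hP0 : P ≠ 0 := by
    rw [h]
    exact mul_ne_zero ((map_ne_zero _).mpr hx) hQ0
  have h1 := hP.abs_arg hφ0 hφ hP0
  have h2 := hQ.abs_arg hφ0 hφ hQ0
  have h3 : x * (((Complex.normSq Q : ℝ)) : ℂ) = conj P * Q := by
    rw [h, map_mul, Complex.conj_conj, mul_assoc, mul_comm (conj Q) Q, Complex.mul_conj]
  have hq : 0 < Complex.normSq Q := Complex.normSq_pos.mpr hQ0
  have h4 : x.arg = (conj P * Q).arg := by
    rw [← h3, mul_comm, Complex.arg_real_mul _ hq]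
  have hcP : |(conj P).arg| ≤ Real.pi / 2 - φ :=
    (hP.conj).abs_arg hφ0 hφ ((map_ne_zero _).mpr hP0)
  have hb1 := abs_le.mp hcP
  have hb2 := abs_le.mp h2
  have h5 : (conj P * Q).arg = (conj P).arg + Q.arg := by
    apply Complex.arg_mul ((map_ne_zero _).mpr hP0) hQ0
    constructor <;> linarith
  rw [h4, h5, abs_le]
  constructor <;> linarith

end Pool.Agent.Helper36.SC
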