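import Pool.Agent.Helper36.SC.Planar

/-!
The first return map to the crossings on one side of the Seifert circles.
-/

namespace Pool.Agent.Helper36.SC

namespace AltDiagram

variable {V : Type} (D : AltDiagram V)

/-- The Seifert circles fall into two classes: the circles that turn from the underpass to the
overpass at every crossing are the cycles of `overNext`, the others are the cycles of
`underNext`. -/
def seifert (b : Bool) : Equiv.Perm V := if b then D.overNext else D.underNext

variable {D}

theorem return_region (σ : Equiv.Perm V) (E : V → D.Region) (b : Bool)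
    (h1 : ∀ v, D.pos v = b → E v = D.region (v, .front))
    (h2 : ∀ v, D.pos (σ v) = b → E v = D.region (σ v, .back))
    (h3 : ∀ v, D.pos (σ v) ≠ b → E v = E (σ v)) (v : V) (hv : D.pos v = b) (n : ℕ)
    (hn0 : 0 < n) (hn : D.pos ((σ ^ n) v) = b)
    (hmin : ∀ j, 0 < j → j < n → D.pos ((σ ^ j) v) ≠ b) :
    D.region (v, .front) = D.region ((σ ^ n) v, .back) := by
  have h4 : ∀ j, j < n → E ((σ ^ j) v) = E v := by
    intro j
    induction j with
    | zero => intro _; simp
    | succ j ih =>
      intro hj
      rw [← ih (by omega), pow_succ', Equiv.Perm.mul_apply]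
      refine (h3 _ ?_).symm
      have := hmin (j + 1) (by omega) hj
      rwa [pow_succ', Equiv.Perm.mul_apply] at this
  obtain ⟨k, rfl⟩ : ∃ k, n = k + 1 := ⟨n - 1, by omega⟩
  rw [← h1 v hv, ← h4 k (by omega), pow_succ', Equiv.Perm.mul_apply]
  apply h2
  rwa [pow_succ', Equiv.Perm.mul_apply] at hn

theorem return_seifert (c : Bool) (v : V) (n : ℕ)
    (hn0 : 0 < n) (hn : D.pos ((D.seifert c ^ n) v) = D.pos v)
    (hmin : ∀ j, 0 < j → j < n → D.pos ((D.seifert c ^ j) v) ≠ D.pos v) :
    D.region (v, .front) = D.region ((D.seifert c ^ n) v, .back) := by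
  cases c <;> cases hb : D.pos v
  · rw [hb] at hn hmin
    refine return_region _ D.uL false ?_ ?_ ?_ v hb n hn0 hn hmin
    · intro w hw; simp [uL, hw]
    · intro w hw
      have hw' : D.pos (D.underNext w) = false := hw
      show D.uL w = D.region (D.underNext w, .back)
      rw [uL_eq]; simp [hw']
    · intro w hw
      have hw' : D.pos (D.underNext w) = true := by simpa [seifert] using hw
      show D.uL w = D.uL (D.underNext w)
      rw [uL_eq]; simp [uL, hw']
  · rw [hb] at hn hmin
    refine return_region _ D.uR true ?_ ?_ ?_ v hb n hn0 hn hmin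
    · intro w hw; simp [uR, hw]
    · intro w hw
      have hw' : D.pos (D.underNext w) = true := hw
      show D.uR w = D.region (D.underNext w, .back)
      rw [uR_eq]; simp [hw']
    · intro w hw
      have hw' : D.pos (D.underNext w) = false := by simpa [seifert] using hw
      show D.uR w = D.uR (D.underNext w)
      rw [uR_eq]; simp [uR, hw']
  · rw [hb] at hn hmin
    refine return_region _ D.oR false ?_ ?_ ?_ v hb n hn0 hn hmin
    · intro w hw; simp [oR, hw]
    · intro w hw
      have hw' : D.pos (D.overNext w) = false := hw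
      show D.oR w = D.region (D.overNext w, .back)
      rw [oR_eq]; simp [hw']
    · intro w hw
      have hw' : D.pos (D.overNext w) = true := by simpa [seifert] using hw
      show D.oR w = D.oR (D.overNext w)
      rw [oR_eq]; simp [oR, hw']
  · rw [hb] at hn hmin
    refine return_region _ D.oL true ?_ ?_ ?_ v hb n hn0 hn hmin
    · intro w hw; simp [oL, hw]
    · intro w hw
      have hw' : D.pos (D.overNext w) = true := hw
      show D.oL w = D.region (D.overNext w, .back)
      rw [oL_eq]; simp [hw']
    · intro w hw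
      have hw' : D.pos (D.overNext w) = false := by simpa [seifert] using hw
      show D.oL w = D.oL (D.overNext w)
      rw [oL_eq]; simp [oL, hw']

/-- A choice of one class of Seifert circles for every atom of the diagram gives a permutation
of the crossings that takes the region in front of a crossing to the region behind the next. -/
theorem exists_return [Finite V] (χ : V → Bool)
    (hχ : ∀ v w, D.pos v = D.pos w →
      D.overNext.SameCycle v w ∨ D.underNext.SameCycle v w → χ v = χ w) (m : ℕ)
    (hm : ∀ v, {w | D.pos w = D.pos v ∧ (D.seifert (χ v)).SameCycle v w}.ncard ≤ m) :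
    ∃ ψ : Equiv.Perm V, (∀ v, D.region (v, .front) = D.region (ψ v, .back)) ∧
      ∀ v, ∃ k, 0 < k ∧ k ≤ m ∧ (ψ ^ k) v = v := by
  classical
  have hex : ∀ v, ∃ k, 0 < k ∧ D.pos ((D.seifert (χ v) ^ k) v) = D.pos v := by
    intro v
    refine ⟨orderOf (D.seifert (χ v)), orderOf_pos _, ?_⟩
    rw [pow_orderOf_eq_one]
    rfl
  set n : V → ℕ := fun v => Nat.find (hex v) with hn
  have hn0 : ∀ v, 0 < n v := fun v => (Nat.find_spec (hex v)).1
  have hn1 : ∀ v, D.pos ((D.seifert (χ v) ^ n v) v) = D.pos v :=
    fun v => (Nat.find_spec (hex v)).2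
  have hn2 : ∀ v j, 0 < j → j < n v → D.pos ((D.seifert (χ v) ^ j) v) ≠ D.pos v :=
    fun v j hj0 hj h => Nat.find_min (hex v) hj ⟨hj0, h⟩
  set f : V → V := fun v => (D.seifert (χ v) ^ n v) v with hf
  have hsc : ∀ v, (D.seifert (χ v)).SameCycle v (f v) := fun v => ⟨n v, by
    rw [zpow_natCast]⟩
  have hfχ : ∀ v, χ (f v) = χ v := by
    intro v
    refine (hχ v (f v) (hn1 v).symm ?_).symm
    have h1 := hsc v
    unfold seifert at h1
    cases hc : χ v
    · right
      simpa [hc] using h1
    · left
      simpa [hc] using h1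
  have key : ∀ v w, f v = f w → n v ≤ n w → v = w := by
    intro v w hvw hle
    have hχ2 : χ v = χ w := by rw [← hfχ v, hvw, hfχ w]
    have hp : D.pos v = D.pos w := by
      have h1 := hn1 v
      have h2 := hn1 w
      have h3 : D.pos (f v) = D.pos (f w) := by rw [hvw]
      have h4 : D.pos (f v) = D.pos v := h1
      have h5 : D.pos (f w) = D.pos w := h2
      rw [← h4, h3, h5]
    obtain ⟨d, hd⟩ := Nat.exists_eq_add_of_le hle
    have h6 : (D.seifert (χ v) ^ n v) v =
        (D.seifert (χ v) ^ n v) ((D.seifert (χ v) ^ d) w) := by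
      rw [← Equiv.Perm.mul_apply, ← pow_add, ← hd]
      have h7 : (D.seifert (χ v) ^ n v) v = (D.seifert (χ w) ^ n w) w := hvw
      rw [h7, hχ2]
    have h8 : v = (D.seifert (χ v) ^ d) w := (D.seifert (χ v) ^ n v).injective h6
    rcases Nat.eq_zero_or_pos d with h0 | h0
    · rw [h0] at h8
      simpa using h8
    · exfalso
      have h9 := hn2 w d h0 (by have := hn0 v; omega)
      apply h9
      rw [← hχ2, ← h8, hp]
  have hinj : Function.Injective f := by
    intro v w hvw
    rcases le_total (n v) (n w) with h | h
    · exact key v w hvw h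
    · exact (key w v hvw.symm h).symm
  refine ⟨Equiv.ofBijective f (Finite.injective_iff_bijective.mp hinj), fun v => ?_,
    fun v => ?_⟩
  · exact return_seifert (χ v) v (n v) (hn0 v) (hn1 v) (hn2 v)
  · set ψ := Equiv.ofBijective f (Finite.injective_iff_bijective.mp hinj) with hψ
    have hψf : ∀ w, ψ w = f w := fun w => rfl
    have horb : ∀ j : ℕ, D.pos ((ψ ^ j) v) = D.pos v ∧ χ ((ψ ^ j) v) = χ v ∧
        (D.seifert (χ v)).SameCycle v ((ψ ^ j) v) := by
      intro j
      induction j with
      | zero => exact ⟨rfl, rfl, Equiv.Perm.SameCycle.refl _ _⟩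
      | succ j ih =>
        obtain ⟨i1, i2, i3⟩ := ih
        rw [pow_succ', Equiv.Perm.mul_apply, hψf]
        refine ⟨(hn1 _).trans i1, (hfχ _).trans i2, i3.trans ?_⟩
        have := hsc ((ψ ^ j) v)
        rwa [i2] at this
    set S : Set V := {w | D.pos w = D.pos v ∧ (D.seifert (χ v)).SameCycle v w} with hS
    have hmem : ∀ j : ℕ, (ψ ^ j) v ∈ S := fun j => ⟨(horb j).1, (horb j).2.2⟩
    by_contra hcon
    push Not at hcon
    have hinj2 : Set.InjOn (fun j : ℕ => (ψ ^ j) v) (Set.Iio (m + 1)) := by
      have main : ∀ i j : ℕ, i < j → j < m + 1 → (ψ ^ i) v ≠ (ψ ^ j) v := by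
        intro i j hij hj h
        apply hcon (j - i) (by omega) (by omega)
        have h1 : (ψ ^ i) ((ψ ^ (j - i)) v) = (ψ ^ i) v := by
          rw [← Equiv.Perm.mul_apply, ← pow_add, h]
          congr 2
          omega
        exact (ψ ^ i).injective h1
      intro i hi j hj hij
      rcases lt_trichotomy i j with h | h | h
      · exact absurd hij (main i j h hj)
      · exact h
      · exact absurd hij.symm (main j i h hi)
    have h1 : (Set.Iio (m + 1)).ncard ≤ S.ncard :=
      Set.ncard_le_ncard_of_injOn (fun j : ℕ => (ψ ^ j) v) (fun j _ => hmem j) hinj2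
        (Set.toFinite S)
    have h2 : (Set.Iio (m + 1)).ncard = m + 1 := by
      rw [← Nat.card_coe_set_eq]
      simp
    have h3 := hm v
    rw [h2] at h1
    have : S.ncard ≤ m := h3
    omega

end AltDiagram

end Pool.Agent.Helper36.SC
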