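import Pool.Agent.Helper36.SC.Potential

/-!
The main identity.
-/

namespace Pool.Agent.Helper36.SC

open ComplexConjugate

namespace AltDiagram

variable {V : Type} {D : AltDiagram V}

/-- index function (exponentiated) at the parameter `-t` -/
structure Index (D : AltDiagram V) (t : ℂ) (s : D.Region → ℂ) : Prop where
  ne : ∀ x, s x ≠ 0
  o : ∀ v, s (D.oL v) = -t * s (D.oR v)
  u : ∀ v, s (D.uL v) = -t * s (D.uR v)

/-- arc values `a` and region values `r` -/
structure Pot (D : AltDiagram V) (t : ℂ) (a : V → ℂ) (r : D.Region → ℂ) : Prop where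
  o : ∀ v, r (D.oL v) + t * r (D.oR v) = a v
  u : ∀ v, r (D.uL v) + t * r (D.uR v) = a (D.underNext v)

variable {t : ℂ} {s : D.Region → ℂ} {a : V → ℂ} {r : D.Region → ℂ}

/-- the weights -/
noncomputable def wt (s : D.Region → ℂ) (v : V) : ℝ := 1 / ‖s (D.oL v)‖

/-- the weights of the other class -/
noncomputable def wu (s : D.Region → ℂ) (v : V) : ℝ := 1 / ‖s (D.uR v)‖

theorem Index.front_eq_back (hs : Index D t s) (v : V) :
    s (D.region (v, .front)) = s (D.region (v, .back)) := by
  have e1 := hs.o v
  have e2 := hs.u v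
  have e3 := hs.o (D.overNext.symm v)
  have e4 := hs.u (D.underNext.symm v)
  rw [oL_symm, oR_symm] at e3
  rw [uL_symm, uR_symm] at e4
  simp only [oL, oR, uL, uR] at e1 e2
  by_cases h : D.pos v
  · simp only [h, if_true] at e1 e2 e3 e4
    rw [e1, e3]
  · simp only [h, if_false, Bool.false_eq_true] at e1 e2 e3 e4
    rw [e2, e4]

theorem Index.left_eq (hs : Index D t s) (v : V) :
    s (D.region (v, .left)) = -t * s (D.region (v, .front)) := by
  have e1 := hs.o v
  have e2 := hs.u v
  simp only [oL, oR, uL, uR] at e1 e2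
  by_cases h : D.pos v
  · simp only [h, if_true] at e1 e2
    rw [e2]
  · simp only [h, if_false, Bool.false_eq_true] at e1 e2
    rw [e1]

theorem Index.front_eq (hs : Index D t s) (v : V) :
    s (D.region (v, .front)) = -t * s (D.region (v, .right)) := by
  have e1 := hs.o v
  have e2 := hs.u v
  simp only [oL, oR, uL, uR] at e1 e2
  by_cases h : D.pos v
  · simp only [h, if_true] at e1 e2
    rw [e1]
  · simp only [h, if_false, Bool.false_eq_true] at e1 e2
    rw [e2]

theorem Index.wt_pos (hs : Index D t s) (v : V) : 0 < wt s v :=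
  div_pos one_pos (norm_pos_iff.mpr (hs.ne _))

theorem Index.wt_over (hs : Index D t s) (v : V) : wt s (D.overNext v) = wt s v := by
  unfold wt
  rw [D.oL_eq v, oL]
  by_cases h : D.pos (D.overNext v)
  · simp only [h, if_true, hs.front_eq_back]
  · simp only [h, if_false, Bool.false_eq_true]

theorem Index.wu_under (hs : Index D t s) (v : V) : wu s (D.underNext v) = wu s v := by
  unfold wu
  rw [D.uR_eq v, uR]
  by_cases h : D.pos (D.underNext v)
  · simp only [h, if_true, hs.front_eq_back]
  · simp only [h, if_false, Bool.false_eq_true]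

theorem Index.wu_eq (hs : Index D t s) (v : V) :
    wu s v = if D.pos v then wt s v else ‖t‖ ^ 2 * wt s v := by
  unfold wu wt uR oL
  by_cases h : D.pos v
  · simp only [h, if_true]
  · simp only [h, if_false, Bool.false_eq_true]
    have n1 : ‖s (D.region (v, .right))‖ ≠ 0 := norm_ne_zero_iff.mpr (hs.ne _)
    have n2 : ‖s (D.region (v, .left))‖ ≠ 0 := norm_ne_zero_iff.mpr (hs.ne _)
    have e : ‖s (D.region (v, .left))‖ = ‖t‖ ^ 2 * ‖s (D.region (v, .right))‖ := by
      rw [hs.left_eq, hs.front_eq, norm_mul, norm_mul, norm_neg]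
      ring
    rw [e] at n2
    rw [e]
    have n3 : ‖t‖ ≠ 0 := by
      intro h0
      rw [h0] at n2
      simp at n2
    field_simp

theorem Index.wt_psi (hs : Index D t s) {v w : V}
    (h : D.region (v, .front) = D.region (w, .back)) : wt s v = wt s w := by
  have hp := D.pos_eq_of_front_back h
  have e : s (D.region (v, .front)) = s (D.region (w, .front)) := by
    rw [h, hs.front_eq_back]
  unfold wt oL
  by_cases h1 : D.pos v
  · have h2 : D.pos w := by rw [← hp]; exact h1
    simp only [h1, h2, if_true, e]
  · have h2 : ¬ D.pos w := by rw [← hp]; exact h1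
    simp only [h1, h2, if_false, Bool.false_eq_true, hs.left_eq, e]

/-- the crossing relation -/
theorem Pot.cross (hr : Pot D t a r) (v : V) :
    r (D.region (v, .left)) - (if D.pos v then r (D.region (v, .front))
      else r (D.region (v, .back))) =
    t * (r (D.region (v, .right)) - (if D.pos v then r (D.region (v, .back))
      else r (D.region (v, .front)))) := by
  have e1 := hr.o v
  have e4 := hr.u (D.underNext.symm v)
  rw [uL_symm, uR_symm, Equiv.apply_symm_apply] at e4
  simp only [oL, oR] at e1
  by_cases h : D.pos v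
  · simp only [h, if_true] at e1 e4 ⊢
    linear_combination e4 - e1
  · simp only [h, if_false, Bool.false_eq_true] at e1 e4 ⊢
    linear_combination e1 - e4

/-- the form -/
noncomputable def form [Fintype V] (c : V → ℝ) (z : V → ℂ) (ψ : Equiv.Perm V) : ℂ :=
  ∑ v, (c v : ℂ) * (conj (z v) * (z v - z (ψ v)))

theorem sum_wt_over [Fintype V] (hs : Index D t s) (q : V → ℂ) :
    ∑ v, (wt s v : ℂ) * (q (D.overNext.symm v) - q v) = 0 := by
  simp only [mul_sub, Finset.sum_sub_distrib]
  rw [← Equiv.sum_comp D.overNext (fun v => (wt s v : ℂ) * q (D.overNext.symm v))]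
  simp only [Equiv.symm_apply_apply, hs.wt_over]
  ring

theorem sum_wu_under [Fintype V] (hs : Index D t s) (q : V → ℂ) :
    ∑ v, (wu s v : ℂ) * (q (D.underNext.symm v) - q v) = 0 := by
  simp only [mul_sub, Finset.sum_sub_distrib]
  rw [← Equiv.sum_comp D.underNext (fun v => (wu s v : ℂ) * q (D.underNext.symm v))]
  simp only [Equiv.symm_apply_apply, hs.wu_under]
  ring

theorem normSq' (z : ℂ) : (‖z‖ : ℂ) ^ 2 = z * conj z := by
  rw [Complex.mul_conj, Complex.normSq_eq_norm_sq]
  push_cast
  ring

/-- sum over the crossings before the two summations by parts -/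
theorem sum_cross [Fintype V] (hs : Index D t s) (hr : Pot D t a r) :
    ∑ v, (wt s v : ℂ) * (if D.pos v then
      t * conj (r (D.region (v, .front))) *
          (r (D.region (v, .back)) - r (D.region (v, .front))) -
        t * conj t * conj (r (D.region (v, .back))) *
          (r (D.region (v, .back)) - r (D.region (v, .front)))
      else t * conj t * (-r (D.region (v, .back)) *
          conj (r (D.region (v, .back)) - r (D.region (v, .front))) +
        t * r (D.region (v, .front)) *
          conj (r (D.region (v, .back)) - r (D.region (v, .front))))) = 0 := by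
  have h1 := sum_wt_over hs (fun v => conj (r (D.oR v)) * r (D.oL v))
  have h2 := sum_wu_under hs (fun v => conj (r (D.uL v)) * r (D.uR v))
  have h3 : (t * conj t) * ∑ v, (wt s v : ℂ) * (conj (r (D.oR (D.overNext.symm v))) *
        r (D.oL (D.overNext.symm v)) - conj (r (D.oR v)) * r (D.oL v)) -
      t * ∑ v, (wu s v : ℂ) * (conj (r (D.uL (D.underNext.symm v))) *
        r (D.uR (D.underNext.symm v)) - conj (r (D.uL v)) * r (D.uR v)) = 0 := by
    rw [h1, h2]; ring
  rw [Finset.mul_sum, Finset.mul_sum, ← Finset.sum_sub_distrib] at h3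
  rw [← neg_eq_zero, ← h3, ← Finset.sum_neg_distrib]
  refine Finset.sum_congr rfl fun v _ => ?_
  have hx := hr.cross v
  rw [oL_symm, oR_symm, uL_symm, uR_symm, hs.wu_eq v]
  unfold oL oR uL uR
  by_cases h : D.pos v
  · simp only [h, if_true] at hx ⊢
    have hx2 := congrArg conj hx
    simp only [map_sub, map_mul] at hx2
    linear_combination ((wt s v : ℂ) * t *
      (r (D.region (v, .back)) - r (D.region (v, .front)))) * hx2
  · simp only [h, if_false, Bool.false_eq_true] at hx ⊢
    push_cast
    rw [normSq' t]
    simp only [map_sub]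
    linear_combination (-(wt s v : ℂ) * t * conj t *
      (conj (r (D.region (v, .back))) - conj (r (D.region (v, .front))))) * hx

end AltDiagram

end Pool.Agent.Helper36.SC
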