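import Mathlib

/-!
The sector inequality for cyclic forms.
-/

namespace Pool.Agent.Helper36.SC

open ComplexConjugate Finset

theorem path_ineq (φ : ℝ) (x : ℕ → ℝ) (n : ℕ) (hn : ∀ j, 0 < j → j < n → 0 < Real.sin (j * φ))
    (k : ℕ) (hk : k + 1 < n) :
    ∑ j ∈ range k, x (j + 1) * x (j + 2) +
      Real.sin ((k + 2 : ℕ) * φ) / (2 * Real.sin ((k + 1 : ℕ) * φ)) * x (k + 1) ^ 2 ≤
    Real.cos φ * ∑ j ∈ range (k + 1), x (j + 1) ^ 2 := by
  induction k with
  | zero =>
    have h1 := hn 1 one_pos (by omega)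
    simp only [Nat.cast_one, one_mul] at h1
    have h2 : Real.sin (((0 + 2 : ℕ) : ℝ) * φ) = 2 * Real.sin φ * Real.cos φ := by
      have : (((0 + 2 : ℕ) : ℝ) * φ) = 2 * φ := by push_cast; ring
      rw [this, Real.sin_two_mul]
    have h3 : Real.sin (((0 + 1 : ℕ) : ℝ) * φ) = Real.sin φ := by
      have : (((0 + 1 : ℕ) : ℝ) * φ) = φ := by push_cast; ring
      rw [this]
    rw [h2, h3]
    simp only [range_zero, sum_empty, zero_add, range_one, sum_singleton]
    apply le_of_eq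
    field_simp
  | succ k ih =>
    have h1 := ih (by omega)
    have s1 := hn (k + 1) (by omega) (by omega)
    have s2 := hn (k + 2) (by omega) (by omega)
    set A := Real.sin (((k + 1 : ℕ) : ℝ) * φ) with hA
    set B := Real.sin (((k + 2 : ℕ) : ℝ) * φ) with hB
    have e3 : Real.sin (((k + 1 + 2 : ℕ) : ℝ) * φ) = 2 * Real.cos φ * B - A := by
      have ea : (((k + 1 + 2 : ℕ) : ℝ) * φ) = ((k + 2 : ℕ) : ℝ) * φ + φ := by push_cast; ring
      have eb : (((k + 1 : ℕ) : ℝ) * φ) = ((k + 2 : ℕ) : ℝ) * φ - φ := by push_cast; ring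
      rw [hA, hB, ea, eb, Real.sin_add, Real.sin_sub]
      ring
    rw [e3, sum_range_succ, sum_range_succ _ (k + 1)]
    have e4 : (2 * Real.cos φ * B - A) / (2 * B) = Real.cos φ - A / (2 * B) := by
      field_simp
    rw [e4]
    have h6 : x (k + 1) * x (k + 2) ≤ B / (2 * A) * x (k + 1) ^ 2 + A / (2 * B) * x (k + 2) ^ 2 := by
      have h7 : 0 ≤ (B * x (k + 1) - A * x (k + 2)) ^ 2 / (2 * A * B) := by positivity
      have h8 : (B * x (k + 1) - A * x (k + 2)) ^ 2 / (2 * A * B) =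
        B / (2 * A) * x (k + 1) ^ 2 + A / (2 * B) * x (k + 2) ^ 2 - x (k + 1) * x (k + 2) := by
        field_simp
        ring
      linarith
    have e9 : x (k + 1 + 1) = x (k + 2) := rfl
    rw [e9]
    nlinarith [h1, h6]

/-- Dirichlet path inequality -/
theorem path_ineq' (φ : ℝ) (hφ0 : 0 < φ) (x : ℕ → ℝ) (n : ℕ) (hn : 2 ≤ n) (hnφ : n * φ ≤ Real.pi) :
    ∑ j ∈ range (n - 2), x (j + 1) * x (j + 2) ≤
    Real.cos φ * ∑ j ∈ range (n - 1), x (j + 1) ^ 2 := by
  have hs : ∀ j : ℕ, 0 < j → j < n → 0 < Real.sin (j * φ) := by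
    intro j hj hjn
    apply Real.sin_pos_of_pos_of_lt_pi
    · have : (0 : ℝ) < j := by exact_mod_cast hj
      positivity
    · have : (j : ℝ) < n := by exact_mod_cast hjn
      nlinarith
  have h1 := path_ineq φ x n hs (n - 2) (by omega)
  have e1 : n - 2 + 1 = n - 1 := by omega
  have e2 : n - 2 + 2 = n := by omega
  rw [e1, e2] at h1
  have h2 : 0 ≤ Real.sin (n * φ) := Real.sin_nonneg_of_nonneg_of_le_pi (by positivity) hnφ
  have h3 : 0 < Real.sin ((n - 1 : ℕ) * φ) := hs (n - 1) (by omega) (by omega)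
  have h4 : 0 ≤ Real.sin (n * φ) / (2 * Real.sin ((n - 1 : ℕ) * φ)) * x (n - 1) ^ 2 := by
    positivity
  linarith

/-- the cyclic form is in the sector: closed sequence -/
theorem cyc_sector (φ : ℝ) (hφ0 : 0 < φ) (z : ℕ → ℂ) (n : ℕ) (hn : 1 ≤ n)
    (hnφ : n * φ ≤ Real.pi) (hz : z n = z 0) (w : ℂ) (hw : ‖w‖ = 1) (hwre : w.re = Real.cos φ) :
    0 ≤ (w * ∑ j ∈ range n, conj (z j) * (z j - z (j + 1))).re := by
  -- translate
  set y : ℕ → ℂ := fun j => z j - z 0 with hy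
  have e1 : ∑ j ∈ range n, conj (z j) * (z j - z (j + 1)) =
      ∑ j ∈ range n, conj (y j) * (y j - y (j + 1)) := by
    have e2 : ∑ j ∈ range n, (z j - z (j + 1)) = 0 := by
      rw [sum_range_sub', hz]; ring
    have e3 : ∑ j ∈ range n, conj (y j) * (y j - y (j + 1)) =
      ∑ j ∈ range n, conj (z j) * (z j - z (j + 1)) -
        conj (z 0) * ∑ j ∈ range n, (z j - z (j + 1)) := by
      rw [mul_sum, ← sum_sub_distrib]
      refine sum_congr rfl fun j _ => ?_
      simp only [hy, map_sub]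
      ring
    rw [e3, e2]; ring
  rw [e1]
  have hy0 : y 0 = 0 := by simp [hy]
  have hyn : y n = 0 := by simp [hy, hz]
  rcases Nat.lt_or_ge n 2 with h | h
  · have : n = 1 := by omega
    subst this
    simp [hy0]
  · have h1 := path_ineq' φ hφ0 (fun j => ‖y j‖) n h hnφ
    have h2 : (w * ∑ j ∈ range n, conj (y j) * (y j - y (j + 1))).re =
        ∑ j ∈ range n, (Real.cos φ * ‖y j‖ ^ 2 - (w * (conj (y j) * y (j + 1))).re) := by
      rw [mul_sum, Complex.re_sum]
      refine sum_congr rfl fun j _ => ?_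
      have e3 : w * (conj (y j) * (y j - y (j + 1))) =
        w * ((‖y j‖ : ℂ) ^ 2) - w * (conj (y j) * y (j + 1)) := by
        have : ((‖y j‖ : ℂ) ^ 2) = conj (y j) * y j := by
          rw [mul_comm, Complex.mul_conj, Complex.normSq_eq_norm_sq]
          push_cast
          ring
        rw [this]; ring
      rw [e3, Complex.sub_re]
      congr 1
      have : ((‖y j‖ : ℂ) ^ 2) = ((‖y j‖ ^ 2 : ℝ) : ℂ) := by push_cast; ring
      rw [this, Complex.re_mul_ofReal, hwre]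
    rw [h2, sum_sub_distrib, ← mul_sum]
    have h3 : ∑ j ∈ range n, (w * (conj (y j) * y (j + 1))).re ≤
        ∑ j ∈ range n, ‖y j‖ * ‖y (j + 1)‖ := by
      refine sum_le_sum fun j _ => ?_
      calc (w * (conj (y j) * y (j + 1))).re ≤ ‖w * (conj (y j) * y (j + 1))‖ :=
            Complex.re_le_norm _
        _ = ‖y j‖ * ‖y (j + 1)‖ := by
            rw [norm_mul, norm_mul, hw, one_mul, Complex.norm_conj]
    have h4 : ∑ j ∈ range n, ‖y j‖ * ‖y (j + 1)‖ =
        ∑ j ∈ range (n - 2), ‖y (j + 1)‖ * ‖y (j + 2)‖ := by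
      obtain ⟨k, rfl⟩ : ∃ k, n = k + 2 := ⟨n - 2, by omega⟩
      rw [sum_range_succ, sum_range_succ']
      have e4 : ‖y (k + 1 + 1)‖ = 0 := by rw [show k + 1 + 1 = k + 2 from rfl, hyn, norm_zero]
      rw [e4, hy0, norm_zero]
      simp
    have h5 : ∑ j ∈ range n, ‖y j‖ ^ 2 = ∑ j ∈ range (n - 1), ‖y (j + 1)‖ ^ 2 := by
      obtain ⟨k, rfl⟩ : ∃ k, n = k + 1 := ⟨n - 1, by omega⟩
      rw [sum_range_succ', hy0, norm_zero]
      simp
    rw [h5]
    rw [h4] at h3
    linarith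

variable {V : Type} [Fintype V]

theorem avg (ψ : Equiv.Perm V) (n : V → ℕ) (hn : ∀ v, 0 < n v) (hψ : ∀ v, n (ψ v) = n v)
    (f : V → ℝ) :
    ∑ v, f v = ∑ v, (1 / (n v : ℝ)) * ∑ j ∈ range (n v), f ((ψ ^ j) v) := by
  set M := ∑ v, n v with hM
  have hle : ∀ v, n v ≤ M := fun v => single_le_sum (fun _ _ => Nat.zero_le _) (mem_univ v)
  have hpow : ∀ (j : ℕ) v, n ((ψ ^ j) v) = n v := by
    intro j
    induction j with
    | zero => intro v; simp
    | succ j ih => intro v; rw [pow_succ', Equiv.Perm.mul_apply, hψ, ih]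
  have h1 : ∀ v, (1 / (n v : ℝ)) * ∑ j ∈ range (n v), f ((ψ ^ j) v) =
      ∑ j ∈ range M, (if j < n v then 1 / (n v : ℝ) else 0) * f ((ψ ^ j) v) := by
    intro v
    rw [mul_sum]
    simp only [ite_mul, zero_mul]
    rw [← sum_filter]
    refine sum_congr ?_ fun _ _ => rfl
    ext j
    simp only [mem_range, mem_filter]
    have := hle v
    omega
  simp only [h1]
  rw [sum_comm]
  have h2 : ∀ j : ℕ, ∑ v, (if j < n v then 1 / (n v : ℝ) else 0) * f ((ψ ^ j) v) =
      ∑ v, (if j < n v then 1 / (n v : ℝ) else 0) * f v := by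
    intro j
    rw [← Equiv.sum_comp (ψ ^ j) (fun v => (if j < n v then 1 / (n v : ℝ) else 0) * f v)]
    simp only [hpow]
  simp only [h2]
  rw [sum_comm]
  refine sum_congr rfl fun v _ => ?_
  rw [← sum_mul]
  have h3 : ∑ j ∈ range M, (if j < n v then 1 / (n v : ℝ) else 0) = 1 := by
    rw [← sum_filter]
    have h4 : (range M).filter (fun j => j < n v) = range (n v) := by
      ext j
      simp only [mem_range, mem_filter]
      have := hle v
      omega
    rw [h4, sum_const, card_range, nsmul_eq_mul]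
    have : (n v : ℝ) ≠ 0 := by exact_mod_cast (hn v).ne'
    field_simp
  rw [h3, one_mul]

/-- sector inequality for a permutation all whose cycles have length at most `m` -/
theorem perm_sector (ψ : Equiv.Perm V) (m : ℕ) (hm : 2 ≤ m)
    (hψ : ∀ v, ∃ k, 0 < k ∧ k ≤ m ∧ (ψ ^ k) v = v) (c : V → ℝ) (hc0 : ∀ v, 0 ≤ c v)
    (hc : ∀ v, c (ψ v) = c v) (z : V → ℂ) (w : ℂ) (hw : ‖w‖ = 1)
    (hwre : w.re = Real.cos (Real.pi / m)) :
    0 ≤ (w * ∑ v, (c v : ℂ) * (conj (z v) * (z v - z (ψ v)))).re := by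
  have hm0 : (0 : ℝ) < m := by positivity
  have hper : ∀ v, v ∈ Function.periodicPts ψ := by
    intro v
    obtain ⟨k, hk0, hkm, hk⟩ := hψ v
    refine ⟨k, hk0, ?_⟩
    rw [Function.IsPeriodicPt, Function.IsFixedPt, ← Equiv.Perm.coe_pow]
    exact hk
  have hcpow : ∀ (j : ℕ) v, c ((ψ ^ j) v) = c v := by
    intro j
    induction j with
    | zero => intro v; simp
    | succ j ih => intro v; rw [pow_succ', Equiv.Perm.mul_apply, hc, ih]
  rw [mul_sum, Complex.re_sum, avg ψ (fun v => Function.minimalPeriod ψ v)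
    (fun v => Function.minimalPeriod_pos_of_mem_periodicPts (hper v))
    (fun v => Function.minimalPeriod_apply (hper v))]
  refine sum_nonneg fun v _ => mul_nonneg (by positivity) ?_
  set n := Function.minimalPeriod ψ v with hn
  have hn1 : 1 ≤ n := Function.minimalPeriod_pos_of_mem_periodicPts (hper v)
  have hnm : n ≤ m := by
    obtain ⟨k, hk0, hkm, hk⟩ := hψ v
    refine le_trans ?_ hkm
    apply Function.IsPeriodicPt.minimalPeriod_le hk0
    rw [Function.IsPeriodicPt, Function.IsFixedPt, ← Equiv.Perm.coe_pow]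
    exact hk
  have hzn : z ((ψ ^ n) v) = z ((ψ ^ 0) v) := by
    have h1 := Function.iterate_minimalPeriod (f := ψ) (x := v)
    rw [← hn, ← Equiv.Perm.coe_pow] at h1
    rw [h1]
    simp
  have hφ : (n : ℝ) * (Real.pi / m) ≤ Real.pi := by
    rw [mul_div_assoc', div_le_iff₀ hm0, mul_comm]
    have : (n : ℝ) ≤ m := by exact_mod_cast hnm
    nlinarith [Real.pi_pos]
  have h2 := cyc_sector (Real.pi / m) (by positivity) (fun j => z ((ψ ^ j) v)) n hn1 hφ hzn w hw
    hwre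
  have h3 : ∑ j ∈ range n, (w * ((c ((ψ ^ j) v) : ℂ) * (conj (z ((ψ ^ j) v)) *
      (z ((ψ ^ j) v) - z (ψ ((ψ ^ j) v)))))).re =
      c v * (w * ∑ j ∈ range n, conj (z ((ψ ^ j) v)) *
        (z ((ψ ^ j) v) - z ((ψ ^ (j + 1)) v))).re := by
    rw [mul_sum, Complex.re_sum, mul_sum]
    refine sum_congr rfl fun j _ => ?_
    rw [hcpow, pow_succ', Equiv.Perm.mul_apply, ← Complex.re_ofReal_mul]
    congr 1
    ring
  rw [h3]
  exact mul_nonneg (hc0 v) h2

/-- the real part of the form -/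
theorem form_re (ψ : Equiv.Perm V) (c : V → ℝ) (hc : ∀ v, c (ψ v) = c v) (z : V → ℂ) :
    (∑ v, (c v : ℂ) * (conj (z v) * (z v - z (ψ v)))).re =
      ∑ v, c v * (‖z v - z (ψ v)‖ ^ 2 / 2) := by
  have h1 : ∑ v, c v * ‖z (ψ v)‖ ^ 2 = ∑ v, c v * ‖z v‖ ^ 2 := by
    rw [← Equiv.sum_comp ψ (fun v => c v * ‖z v‖ ^ 2)]
    simp only [hc]
  have h2 : ∑ v, c v * (‖z v - z (ψ v)‖ ^ 2 / 2) =
      ∑ v, c v * (‖z v - z (ψ v)‖ ^ 2 / 2) +
        (∑ v, c v * ‖z v‖ ^ 2 - ∑ v, c v * ‖z (ψ v)‖ ^ 2) / 2 := by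
    rw [h1]; ring
  rw [h2, ← sum_sub_distrib, sum_div, ← sum_add_distrib, Complex.re_sum]
  refine sum_congr rfl fun v _ => ?_
  rw [Complex.re_ofReal_mul, ← Complex.normSq_eq_norm_sq, ← Complex.normSq_eq_norm_sq,
    ← Complex.normSq_eq_norm_sq, Complex.normSq_apply, Complex.normSq_apply,
    Complex.normSq_apply]
  simp only [Complex.mul_re, Complex.conj_re, Complex.conj_im, Complex.sub_re, Complex.sub_im]
  ring

end Pool.Agent.Helper36.SC
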