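import Mathlib

/-!
Oriented alternating link diagrams on the sphere, as combinatorial objects, and their
Alexander polynomials (Wirtinger presentation and Fox calculus).
-/

namespace Pool.Agent.Helper36.SC

open Polynomial

/-- The four corners at a crossing, both strands pointing upward: `front` lies between the two
outgoing ends, `back` between the two incoming ends, `left` and `right` on the two sides. -/
inductive Corner
  | left | right | front | back
  deriving DecidableEq, Fintype

/-- An oriented alternating link diagram with crossing set `V`. Every edge of the diagram
starts at a crossing as the outgoing overpass and ends at a crossing as the incoming underpass, or
starts as the outgoing underpass and ends as the incoming overpass. -/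
structure AltDiagram (V : Type) where
  /-- `pos v` holds if the crossing `v` is positive -/
  pos : V → Bool
  /-- the edge that leaves `v` on the overpass enters `overNext v` on the underpass -/
  overNext : Equiv.Perm V
  /-- the edge that leaves `v` on the underpass enters `underNext v` on the overpass -/
  underNext : Equiv.Perm V

namespace AltDiagram

variable {V : Type} (D : AltDiagram V)

/-- Two corners that lie on the same side of one edge of the diagram. At a positive crossing the
overpass runs from lower left to upper right, at a negative crossing from lower right to
upper left. -/
inductive SameSide : V × Corner → V × Corner → Prop
  /-- left side of the edge from the overpass of `v` to the underpass of `overNext v` -/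
  | overLeft (v : V) : SameSide
      (v, if D.pos v then .front else .left)
      (D.overNext v, if D.pos (D.overNext v) then .back else .left)
  /-- right side of the same edge -/
  | overRight (v : V) : SameSide
      (v, if D.pos v then .right else .front)
      (D.overNext v, if D.pos (D.overNext v) then .right else .back)
  /-- left side of the edge from the underpass of `v` to the overpass of `underNext v` -/
  | underLeft (v : V) : SameSide
      (v, if D.pos v then .left else .front)
      (D.underNext v, if D.pos (D.underNext v) then .left else .back)
  /-- right side of the same edge -/
  | underRight (v : V) : SameSide
      (v, if D.pos v then .front else .right)
      (D.underNext v, if D.pos (D.underNext v) then .back else .right)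

/-- Two corners lie in the same region of the complement of the diagram. -/
def regionSetoid : Setoid (V × Corner) := Relation.EqvGen.setoid D.SameSide

/-- The regions of the diagram. -/
def Region : Type := Quotient D.regionSetoid

/-- The region of a corner. -/
def region (c : V × Corner) : D.Region := Quotient.mk D.regionSetoid c

/-- The diagram is connected: no proper non-empty set of crossings is closed under going along
the edges. -/
def Connected : Prop :=
  ∀ S : Set V, S.Nonempty → (∀ v ∈ S, D.overNext v ∈ S ∧ D.underNext v ∈ S) → S = Set.univ

/-- The surface obtained by gluing a disc to each region is the sphere (for a connected diagram:
Euler characteristic `V - 2V + F = 2`). -/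
def Planar : Prop := Nat.card D.Region = Nat.card V + 2

variable [DecidableEq V]

/-- The Alexander matrix of the diagram: rows are the crossings, columns are the arcs, and the arc
that passes over the crossing `v` has the name `v`. So the arc that ends at `v` is
`overNext⁻¹ v` and the arc that starts at `v` is `underNext v`; the row of `v` is the Wirtinger
relation: `underNext v - X overNext⁻¹ v = (1 - X) v` at a positive crossing,
`overNext⁻¹ v - X underNext v = (1 - X) v` at a negative one. -/
noncomputable def alexanderMatrix : Matrix V V ℤ[X] :=
  Matrix.of fun v w =>
    (1 - X) * (if w = v then 1 else 0)
      - (if D.pos v then 1 else -X) * (if w = D.underNext v then 1 else 0)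
      + (if D.pos v then X else -1) * (if w = D.overNext.symm v then 1 else 0)

variable [Fintype V]

/-- The Alexander polynomial of the diagram (up to a unit `± X ^ k`): the determinant of the
Alexander matrix without the row and the column of `u`. -/
noncomputable def alexander (u : V) : ℤ[X] :=
  (D.alexanderMatrix.submatrix (Subtype.val : {v : V // v ≠ u} → V)
    (Subtype.val : {v : V // v ≠ u} → V)).det

end AltDiagram

end Pool.Agent.Helper36.SC
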