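import Pool.Agent.Helper36.SC.Core

/-!
The main identity in terms of the two forms.
-/

namespace Pool.Agent.Helper36.SC

open ComplexConjugate

namespace AltDiagram

variable {V : Type} {D : AltDiagram V}
variable {t : ℂ} {s : D.Region → ℂ} {a : V → ℂ} {r : D.Region → ℂ}

/-- weights on the positive crossings -/
noncomputable def cp (s : D.Region → ℂ) (v : V) : ℝ := if D.pos v then wt s v else 0

/-- weights on the negative crossings -/
noncomputable def cn (s : D.Region → ℂ) (v : V) : ℝ := if D.pos v then 0 else wt s v

/-- values at the back corners -/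
def zb (r : D.Region → ℂ) (v : V) : ℂ := r (D.region (v, .back))

theorem Index.cp_psi (hs : Index D t s) {v w : V}
    (h : D.region (v, .front) = D.region (w, .back)) : cp s w = cp s v := by
  unfold cp
  rw [D.pos_eq_of_front_back h, hs.wt_psi h]

theorem Index.cn_psi (hs : Index D t s) {v w : V}
    (h : D.region (v, .front) = D.region (w, .back)) : cn s w = cn s v := by
  unfold cn
  rw [D.pos_eq_of_front_back h, hs.wt_psi h]

theorem balance [Fintype V] (c : V → ℝ) (ψ : Equiv.Perm V) (hc : ∀ v, c (ψ v) = c v)
    (f : V → ℂ) : ∑ v, (c v : ℂ) * (f v - f (ψ v)) = 0 := by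
  simp only [mul_sub, Finset.sum_sub_distrib]
  rw [← Equiv.sum_comp ψ (fun v => (c v : ℂ) * f v)]
  simp only [hc]
  ring

theorem main_identity [Fintype V] (ht : t ≠ 0) (hs : Index D t s) (hr : Pot D t a r)
    (ψ : Equiv.Perm V) (hψ : ∀ v, D.region (v, .front) = D.region (ψ v, .back)) :
    (conj (form (cp s) (zb r) ψ) + t * conj t * form (cn s) (zb r) ψ) +
      conj t * (form (cp s) (zb r) ψ + conj (form (cn s) (zb r) ψ)) = 0 := by
  have h1 := sum_cross hs hr
  have hb1 := balance (cp s) ψ (fun v => hs.cp_psi (hψ v)) (fun v => zb r v * conj (zb r v))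
  have hb2 := balance (cn s) ψ (fun v => hs.cn_psi (hψ v)) (fun v => zb r v * conj (zb r v))
  have h2 : t * ((conj (form (cp s) (zb r) ψ) + t * conj t * form (cn s) (zb r) ψ) +
      conj t * (form (cp s) (zb r) ψ + conj (form (cn s) (zb r) ψ))) = 0 := by
    have h3 : t * ((conj (form (cp s) (zb r) ψ) + t * conj t * form (cn s) (zb r) ψ) +
      conj t * (form (cp s) (zb r) ψ + conj (form (cn s) (zb r) ψ))) =
      -(∑ v, (wt s v : ℂ) * (if D.pos v then
      t * conj (r (D.region (v, .front))) *
          (r (D.region (v, .back)) - r (D.region (v, .front))) -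
        t * conj t * conj (r (D.region (v, .back))) *
          (r (D.region (v, .back)) - r (D.region (v, .front)))
      else t * conj t * (-r (D.region (v, .back)) *
          conj (r (D.region (v, .back)) - r (D.region (v, .front))) +
        t * r (D.region (v, .front)) *
          conj (r (D.region (v, .back)) - r (D.region (v, .front)))))) +
      t * (∑ v, (cp s v : ℂ) * (zb r v * conj (zb r v) - zb r (ψ v) * conj (zb r (ψ v)))) +
      t * conj t * t * (∑ v, (cn s v : ℂ) *
        (zb r v * conj (zb r v) - zb r (ψ v) * conj (zb r (ψ v)))) := by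
      simp only [form, map_sum, Finset.mul_sum, ← Finset.sum_neg_distrib,
        ← Finset.sum_add_distrib]
      refine Finset.sum_congr rfl fun v _ => ?_
      rw [hψ v]
      unfold cp cn zb
      by_cases h : D.pos v
      · simp only [h, if_true, map_mul, Complex.conj_ofReal, map_sub, Complex.conj_conj]
        push_cast
        ring
      · simp only [h, if_false, Bool.false_eq_true, map_mul, Complex.conj_ofReal, map_sub,
          Complex.conj_conj]
        push_cast
        ring
    rw [h3, h1, hb1, hb2]
    ring
  exact (mul_eq_zero.mp h2).resolve_left ht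

end AltDiagram

end Pool.Agent.Helper36.SC
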