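import Mathlib

/-!
Log-concavity from a sector of zeros.
-/

namespace Pool.Agent.Helper36.SC

open Polynomial

/-- coefficients indexed by the integers -/
noncomputable def cz (Q : ℝ[X]) (k : ℤ) : ℝ := if 0 ≤ k then Q.coeff k.toNat else 0

/-- non-negative and log-concave without gaps -/
def PF2 (f : ℤ → ℝ) : Prop :=
  (∀ k, 0 ≤ f k) ∧ ∀ i j, i ≤ j → f (i - 1) * f (j + 1) ≤ f i * f j

theorem PF2.mono_aux {f : ℤ → ℝ} (hf : PF2 f) (n : ℕ) : ∀ i j : ℤ, i ≤ j →
    f (i - n) * f (j + n) ≤ f i * f j := by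
  induction n with
  | zero => intro i j _; simp
  | succ n ih =>
    intro i j hij
    have h1 := hf.2 (i - n) (j + n) (by omega)
    have h2 := ih i j hij
    have e1 : i - ((n + 1 : ℕ) : ℤ) = i - n - 1 := by push_cast; ring
    have e2 : j + ((n + 1 : ℕ) : ℤ) = j + n + 1 := by push_cast; ring
    rw [e1, e2]
    exact h1.trans h2

theorem PF2.mono {f : ℤ → ℝ} (hf : PF2 f) {p q p' q' : ℤ} (hs : p + q = p' + q') (h1 : p' ≤ p)
    (h2 : p' ≤ q) : f p' * f q' ≤ f p * f q := by
  rcases le_total p q with h | h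
  · have h3 := hf.mono_aux (p - p').toNat p q h
    have e1 : p - ((p - p').toNat : ℤ) = p' := by rw [Int.toNat_of_nonneg (by omega)]; ring
    have e2 : q + ((p - p').toNat : ℤ) = q' := by rw [Int.toNat_of_nonneg (by omega)]; omega
    rwa [e1, e2] at h3
  · have h3 := hf.mono_aux (q - p').toNat q p h
    have e1 : q - ((q - p').toNat : ℤ) = p' := by rw [Int.toNat_of_nonneg (by omega)]; ring
    have e2 : p + ((q - p').toNat : ℤ) = q' := by rw [Int.toNat_of_nonneg (by omega)]; omega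
    rw [e1, e2] at h3
    linarith [mul_comm (f p) (f q)]

theorem PF2.lin {f : ℤ → ℝ} (hf : PF2 f) {r : ℝ} (hr : 0 ≤ r) :
    PF2 (fun k => f (k - 1) + r * f k) := by
  refine ⟨fun k => add_nonneg (hf.1 _) (mul_nonneg hr (hf.1 _)), fun i j hij => ?_⟩
  show (f (i - 1 - 1) + r * f (i - 1)) * (f (j + 1 - 1) + r * f (j + 1)) ≤
    (f (i - 1) + r * f i) * (f (j - 1) + r * f j)
  have e1 : i - 1 - 1 = i - 2 := by ring
  have e2 : j + 1 - 1 = j := by ring
  rw [e1, e2]
  have h1 : f (i - 2) * f j ≤ f (i - 1) * f (j - 1) := hf.mono (by ring) (by omega) (by omega)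
  have h2 : f (i - 1) * f (j + 1) ≤ f i * f j := hf.2 i j hij
  have h3 : f (i - 2) * f (j + 1) ≤ f i * f (j - 1) := hf.mono (by ring) (by omega) (by omega)
  have h4 := mul_le_mul_of_nonneg_left h2 (mul_nonneg hr hr)
  have h5 := mul_le_mul_of_nonneg_left h3 hr
  linarith

theorem PF2.quad {f : ℤ → ℝ} (hf : PF2 f) {b c : ℝ} (hb : 0 ≤ b) (hc : 0 ≤ c) (hbc : c ≤ b ^ 2) :
    PF2 (fun k => f (k - 2) + b * f (k - 1) + c * f k) := by
  refine ⟨fun k => add_nonneg (add_nonneg (hf.1 _) (mul_nonneg hb (hf.1 _)))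
    (mul_nonneg hc (hf.1 _)), fun i j hij => ?_⟩
  show (f (i - 1 - 2) + b * f (i - 1 - 1) + c * f (i - 1)) *
      (f (j + 1 - 2) + b * f (j + 1 - 1) + c * f (j + 1)) ≤
    (f (i - 2) + b * f (i - 1) + c * f i) * (f (j - 2) + b * f (j - 1) + c * f j)
  have e1 : i - 1 - 2 = i - 3 := by ring
  have e2 : i - 1 - 1 = i - 2 := by ring
  have e3 : j + 1 - 2 = j - 1 := by ring
  have e4 : j + 1 - 1 = j := by ring
  rw [e1, e2, e3, e4]
  have h1 : f (i - 3) * f (j - 1) ≤ f (i - 2) * f (j - 2) :=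
    hf.mono (by ring) (by omega) (by omega)
  have h2 : f (i - 3) * f j ≤ f (i - 1) * f (j - 2) := hf.mono (by ring) (by omega) (by omega)
  have h3 : f (i - 2) * f j ≤ f (i - 1) * f (j - 1) := hf.mono (by ring) (by omega) (by omega)
  have h4 : f (i - 3) * f (j + 1) ≤ f (i - 2) * f j := hf.mono (by ring) (by omega) (by omega)
  have h5 : f (i - 2) * f j ≤ f i * f (j - 2) := hf.mono (by ring) (by omega) (by omega)
  have h6 : f (i - 2) * f (j + 1) ≤ f i * f (j - 1) := hf.mono (by ring) (by omega) (by omega)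
  have h7 : f (i - 1) * f (j + 1) ≤ f i * f j := hf.2 i j hij
  have g2 := mul_le_mul_of_nonneg_left h2 hb
  have g3 := mul_le_mul_of_nonneg_right hbc (sub_nonneg.mpr h3)
  have g45 := mul_le_mul_of_nonneg_left (add_le_add h4 h5) hc
  have g6 := mul_le_mul_of_nonneg_left h6 (mul_nonneg hb hc)
  have g7 := mul_le_mul_of_nonneg_left h7 (mul_nonneg hc hc)
  nlinarith [h1, g2, g3, g45, g6, g7]

theorem cz_lin (Q : ℝ[X]) (r : ℝ) (k : ℤ) :
    cz (Q * (X + C r)) k = cz Q (k - 1) + r * cz Q k := by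
  unfold cz
  rcases lt_trichotomy k 0 with h | h | h
  · have h1 : ¬ 0 ≤ k := by omega
    have h2 : ¬ 0 ≤ k - 1 := by omega
    simp only [h1, h2, if_false]
    ring
  · subst h
    simp [mul_add]
    ring
  · have h1 : 0 ≤ k := by omega
    have h2 : 0 ≤ k - 1 := by omega
    obtain ⟨n, rfl⟩ : ∃ n : ℕ, k = n + 1 := ⟨(k - 1).toNat, by
      rw [Int.toNat_of_nonneg h2]; ring⟩
    have e1 : ((n : ℤ) + 1).toNat = n + 1 := by omega
    have e2 : ((n : ℤ) + 1 - 1).toNat = n := by omega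
    simp only [h1, h2, if_true, e1, e2, mul_add, coeff_add, coeff_mul_X, coeff_mul_C]
    ring

theorem cz_X (Q : ℝ[X]) (k : ℤ) : cz (Q * X) k = cz Q (k - 1) := by
  have := cz_lin Q 0 k
  simpa using this

theorem cz_add (P Q : ℝ[X]) (k : ℤ) : cz (P + Q) k = cz P k + cz Q k := by
  unfold cz; split_ifs <;> simp

theorem cz_mul_C (Q : ℝ[X]) (c : ℝ) (k : ℤ) : cz (Q * C c) k = c * cz Q k := by
  unfold cz; split_ifs <;> simp [mul_comm]

theorem cz_quad (Q : ℝ[X]) (b c : ℝ) (k : ℤ) :
    cz (Q * (X ^ 2 + C b * X + C c)) k = cz Q (k - 2) + b * cz Q (k - 1) + c * cz Q k := by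
  have e : Q * (X ^ 2 + C b * X + C c) = Q * X * X + (Q * X) * C b + Q * C c := by ring
  have e2 : k - 1 - 1 = k - 2 := by ring
  rw [e, cz_add, cz_add, cz_X, cz_X, cz_mul_C, cz_X, cz_mul_C, e2]

theorem pf2_const (c : ℝ) (hc : 0 ≤ c) : PF2 (cz (C c)) := by
  have h0 : ∀ k : ℤ, k ≠ 0 → cz (C c) k = 0 := by
    intro k hk
    unfold cz
    split_ifs with h
    · rw [coeff_C, if_neg]
      omega
    · rfl
  have h1 : ∀ k : ℤ, 0 ≤ cz (C c) k := by
    intro k
    by_cases hk : k = 0
    · subst hk; simp [cz, hc]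
    · rw [h0 k hk]
  refine ⟨h1, fun i j hij => ?_⟩
  by_cases hi : i - 1 = 0
  · rw [h0 (j + 1) (by omega), mul_zero]
    exact mul_nonneg (h1 _) (h1 _)
  · rw [h0 (i - 1) hi, zero_mul]
    exact mul_nonneg (h1 _) (h1 _)

theorem pf2_of_roots (n : ℕ) : ∀ Q : ℝ[X], Q ≠ 0 → Q.natDegree ≤ n →
    (∀ w : ℂ, aeval w Q = 0 → ‖w‖ ≤ -2 * w.re) →
    ∃ s : ℝ, (s = 1 ∨ s = -1) ∧ PF2 (cz (Q * C s)) := by
  induction n with
  | zero =>
    intro Q hQ hn _
    have h1 : Q = C (Q.coeff 0) := eq_C_of_natDegree_le_zero hn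
    rcases le_total 0 (Q.coeff 0) with h | h
    · refine ⟨1, Or.inl rfl, ?_⟩
      rw [h1, ← C_mul]
      apply pf2_const
      linarith
    · refine ⟨-1, Or.inr rfl, ?_⟩
      rw [h1, ← C_mul]
      apply pf2_const
      linarith
  | succ n ih =>
    intro Q hQ hn hroots
    by_cases hd : Q.natDegree = 0
    · exact ih Q hQ (by omega) hroots
    have hdeg : 0 < (Q.map (algebraMap ℝ ℂ)).degree := by
      rw [degree_map]
      exact natDegree_pos_iff_degree_pos.mp (Nat.pos_of_ne_zero hd)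
    obtain ⟨w, hw⟩ := Complex.exists_root hdeg
    have hw2 : aeval w Q = 0 := by
      rw [IsRoot.def, eval_map_algebraMap] at hw
      exact hw
    have hwr := hroots w hw2
    by_cases him : w.im = 0
    · have hwre : w = ((w.re : ℝ) : ℂ) := by
        apply Complex.ext <;> simp [him]
      have hroot : Q.IsRoot w.re := by
        rw [hwre] at hw2
        have h3 : aeval ((w.re : ℝ) : ℂ) Q = ((Q.eval w.re : ℝ) : ℂ) := by
          have := aeval_algebraMap_apply (A := ℝ) ℂ w.re Q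
          simpa using this
        rw [h3] at hw2
        exact_mod_cast hw2
      obtain ⟨P, hP⟩ := dvd_iff_isRoot.mpr hroot
      have hre : w.re ≤ 0 := by
        have := norm_nonneg w
        linarith
      have hP0 : P ≠ 0 := by
        rintro rfl
        apply hQ
        rw [hP, mul_zero]
      have hdegP : P.natDegree ≤ n := by
        have := congrArg natDegree hP
        rw [natDegree_mul (X_sub_C_ne_zero _) hP0, natDegree_X_sub_C] at this
        omega
      obtain ⟨s, hs, hpf⟩ := ih P hP0 hdegP (fun v hv => hroots v (by rw [hP, map_mul, hv,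
        mul_zero]))
      refine ⟨s, hs, ?_⟩
      have h4 := hpf.lin (r := -w.re) (by linarith)
      have h5 : cz (Q * C s) = fun k => cz (P * C s) (k - 1) + (-w.re) * cz (P * C s) k := by
        ext k
        rw [← cz_lin]
        congr 1
        rw [hP, C_neg]
        ring
      rw [h5]
      exact h4
    · obtain ⟨P, hP⟩ := quadratic_dvd_of_aeval_eq_zero_im_ne_zero Q hw2 him
      have hP0 : P ≠ 0 := by
        rintro rfl
        apply hQ
        rw [hP, mul_zero]
      have hdegq : (X ^ 2 - C (2 * w.re) * X + C (‖w‖ ^ 2) : ℝ[X]).natDegree = 2 := by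
        compute_degree!
      have hq0 : (X ^ 2 - C (2 * w.re) * X + C (‖w‖ ^ 2) : ℝ[X]) ≠ 0 := by
        intro h
        rw [h] at hdegq
        simp at hdegq
      have hdegP : P.natDegree ≤ n := by
        have := congrArg natDegree hP
        rw [natDegree_mul hq0 hP0, hdegq] at this
        omega
      obtain ⟨s, hs, hpf⟩ := ih P hP0 hdegP (fun v hv => hroots v (by rw [hP, map_mul, hv,
        mul_zero]))
      refine ⟨s, hs, ?_⟩
      have hn0 := norm_nonneg w
      have h4 := hpf.quad (b := -2 * w.re) (c := ‖w‖ ^ 2) (by linarith) (by positivity)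
        (by nlinarith)
      have h5 : cz (Q * C s) = fun k => cz (P * C s) (k - 2) + (-2 * w.re) * cz (P * C s) (k - 1)
          + ‖w‖ ^ 2 * cz (P * C s) k := by
        ext k
        rw [← cz_quad]
        congr 1
        rw [hP]
        have : (C (-2 * w.re) : ℝ[X]) = - C (2 * w.re) := by rw [← C_neg]; congr 1; ring
        rw [this]
        ring
      rw [h5]
      exact h4

end Pool.Agent.Helper36.SC
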