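import Pool.Agent.Helper36.SC.Sector
import Pool.Agent.Helper36.SC.LC

/-!
Log-concavity of the Alexander polynomial from the sector theorem.
-/

namespace Pool.Agent.Helper36.SC

open Polynomial

theorem norm_le_of_arg {w : ℂ} (h : |(-w).arg| ≤ Real.pi / 3) : ‖w‖ ≤ -2 * w.re := by
  by_cases h0 : w = 0
  · simp [h0]
  have h1 : Real.cos (-w).arg = (-w).re / ‖-w‖ := Complex.cos_arg (neg_ne_zero.mpr h0)
  have h2 : (1 : ℝ) / 2 ≤ Real.cos (-w).arg := by
    rw [← Real.cos_abs, ← Real.cos_pi_div_three]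
    apply Real.cos_le_cos_of_nonneg_of_le_pi (abs_nonneg _) _ h
    linarith [Real.pi_pos]
  rw [h1, norm_neg] at h2
  have h3 : 0 < ‖w‖ := norm_pos_iff.mpr h0
  rw [le_div_iff₀ h3] at h2
  simp only [Complex.neg_re] at h2
  linarith

theorem coeff_comp_neg (P : ℝ[X]) (k : ℕ) : (P.comp (-X)).coeff k = (-1) ^ k * P.coeff k := by
  induction P using Polynomial.induction_on' with
  | add P Q hP hQ => rw [add_comp, coeff_add, coeff_add, hP, hQ]; ring
  | monomial m a =>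
    rw [monomial_comp, neg_pow, ← mul_assoc]
    have e : (-1 : ℝ[X]) ^ m = C ((-1) ^ m) := by simp
    rw [e, ← C_mul, coeff_C_mul, coeff_X_pow, coeff_monomial]
    split_ifs with h1 h2 h2
    · subst h1; ring
    · exact absurd h1.symm h2
    · exact absurd h2.symm h1
    · simp

/-- an integer polynomial all whose non-zero complex zeros lie in the sector
`|arg| ≤ π / 3` has alternating log-concave coefficients without gaps -/
theorem lc_of_sector (P : ℤ[X]) (h : ∀ x : ℂ, x ≠ 0 → aeval x P = 0 → |x.arg| ≤ Real.pi / 3) :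
    (∃ s : ℤ, (s = 1 ∨ s = -1) ∧ ∀ k, 0 ≤ s * (-1) ^ k * P.coeff k) ∧
    (∀ k, P.coeff k * P.coeff (k + 2) ≤ P.coeff (k + 1) ^ 2) ∧
    (∀ i j k, i < j → j < k → P.coeff i ≠ 0 → P.coeff k ≠ 0 → P.coeff j ≠ 0) := by
  have hP0 : P ≠ 0 := by
    rintro rfl
    have := h (-1) (by norm_num) (by simp)
    rw [Complex.arg_neg_one, abs_of_pos Real.pi_pos] at this
    linarith [Real.pi_pos]
  set R : ℝ[X] := P.map (algebraMap ℤ ℝ) with hR
  have hR0 : R ≠ 0 := (Polynomial.map_ne_zero_iff (RingHom.injective_int (algebraMap ℤ ℝ))).mpr hP0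
  set Q : ℝ[X] := R.comp (-X) with hQ
  have hcoeff : ∀ k, Q.coeff k = (-1) ^ k * (P.coeff k : ℝ) := by
    intro k
    rw [hQ, coeff_comp_neg, hR, coeff_map]
    simp
  have hQ0 : Q ≠ 0 := by
    intro h0
    apply hR0
    ext k
    have h1 := congrArg (fun S => S.coeff k) h0
    simp only [hcoeff, coeff_zero] at h1
    rw [hR, coeff_map, coeff_zero]
    have h2 : ((-1 : ℝ) ^ k) ≠ 0 := pow_ne_zero _ (by norm_num)
    simpa using (mul_eq_zero.mp h1).resolve_left h2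
  obtain ⟨s, hs, hpf⟩ := pf2_of_roots Q.natDegree Q hQ0 le_rfl (by
    intro w hw
    by_cases hw0 : w = 0
    · simp [hw0]
    apply norm_le_of_arg
    apply h (-w) (neg_ne_zero.mpr hw0)
    rw [hQ, aeval_comp, map_neg, aeval_X, hR] at hw
    rw [← hw, aeval_map_algebraMap])
  have hf : ∀ k : ℕ, cz (Q * C s) k = s * ((-1) ^ k * (P.coeff k : ℝ)) := by
    intro k
    unfold cz
    have h1 : (0 : ℤ) ≤ k := by positivity
    rw [if_pos h1, Int.toNat_natCast, coeff_mul_C, hcoeff]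
    ring
  have hs2 : s * s = 1 := by rcases hs with h | h <;> rw [h] <;> norm_num
  have hm2 : ∀ k : ℕ, ((-1 : ℝ) ^ k) * (-1) ^ k = 1 := by
    intro k; rw [← mul_pow]; simp
  refine ⟨?_, ?_, ?_⟩
  · rcases hs with h | h
    · refine ⟨1, Or.inl rfl, fun k => ?_⟩
      have h1 := hpf.1 k
      rw [hf, h] at h1
      have h2 : (0 : ℝ) ≤ ((1 * (-1) ^ k * P.coeff k : ℤ) : ℝ) := by
        push_cast
        linarith
      exact_mod_cast h2
    · refine ⟨-1, Or.inr rfl, fun k => ?_⟩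
      have h1 := hpf.1 k
      rw [hf, h] at h1
      have h2 : (0 : ℝ) ≤ ((-1 * (-1) ^ k * P.coeff k : ℤ) : ℝ) := by
        push_cast
        linarith
      exact_mod_cast h2
  · intro k
    have h1 := hpf.2 (k + 1) (k + 1) le_rfl
    have e1 : ((k : ℤ) + 1 - 1) = ((k : ℕ) : ℤ) := by ring
    have e2 : ((k : ℤ) + 1 + 1) = ((k + 2 : ℕ) : ℤ) := by push_cast; ring
    have e3 : ((k : ℤ) + 1) = ((k + 1 : ℕ) : ℤ) := by push_cast; ring
    rw [e1, e2, e3, hf, hf, hf] at h1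
    have h2 : s * ((-1) ^ k * (P.coeff k : ℝ)) * (s * ((-1) ^ (k + 2) * (P.coeff (k + 2) : ℝ))) =
        (s * s) * (((-1 : ℝ) ^ k) * (-1) ^ k) * (P.coeff k * P.coeff (k + 2)) := by ring
    have h3 : s * ((-1) ^ (k + 1) * (P.coeff (k + 1) : ℝ)) *
        (s * ((-1) ^ (k + 1) * (P.coeff (k + 1) : ℝ))) =
        (s * s) * (((-1 : ℝ) ^ k) * (-1) ^ k) * ((P.coeff (k + 1) : ℝ) ^ 2) := by ring
    rw [h2, h3, hs2, hm2] at h1
    have h4 : ((P.coeff k * P.coeff (k + 2) : ℤ) : ℝ) ≤ ((P.coeff (k + 1) ^ 2 : ℤ) : ℝ) := by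
      push_cast
      linarith
    exact_mod_cast h4
  · intro i j k hij hjk hi hk hj
    have h1 := hpf.mono (p := j) (q := (i + k - j : ℕ)) (p' := i) (q' := k)
      (by omega) (by omega) (by omega)
    rw [hf, hf, hf, hj] at h1
    have hfi : 0 ≤ s * ((-1) ^ i * (P.coeff i : ℝ)) := by rw [← hf]; exact hpf.1 i
    have hfk : 0 ≤ s * ((-1) ^ k * (P.coeff k : ℝ)) := by rw [← hf]; exact hpf.1 k
    have hs0 : s ≠ 0 := by rcases hs with h | h <;> rw [h] <;> norm_num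
    have hi2 : s * ((-1) ^ i * (P.coeff i : ℝ)) ≠ 0 :=
      mul_ne_zero hs0 (mul_ne_zero (pow_ne_zero _ (by norm_num)) (by exact_mod_cast hi))
    have hk2 : s * ((-1) ^ k * (P.coeff k : ℝ)) ≠ 0 :=
      mul_ne_zero hs0 (mul_ne_zero (pow_ne_zero _ (by norm_num)) (by exact_mod_cast hk))
    have h5 : 0 < s * ((-1) ^ i * (P.coeff i : ℝ)) := lt_of_le_of_ne hfi (Ne.symm hi2)
    have h6 : 0 < s * ((-1) ^ k * (P.coeff k : ℝ)) := lt_of_le_of_ne hfk (Ne.symm hk2)
    have h7 := mul_pos h5 h6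
    simp only [Int.cast_zero, mul_zero, zero_mul] at h1
    linarith

end Pool.Agent.Helper36.SC
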