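import Pool.Agent.Helper36.SC.Def

/-!
Exactness on the sphere: every flow on the edges of a connected planar diagram is the
difference of a function on the regions.
-/

namespace Pool.Agent.Helper36.SC

namespace AltDiagram

variable {V : Type} (D : AltDiagram V)

/-- left region of the edge leaving `v` on the overpass -/
def oL (v : V) : D.Region := D.region (v, if D.pos v then .front else .left)
/-- right region of the edge leaving `v` on the overpass -/
def oR (v : V) : D.Region := D.region (v, if D.pos v then .right else .front)
/-- left region of the edge leaving `v` on the underpass -/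
def uL (v : V) : D.Region := D.region (v, if D.pos v then .left else .front)
/-- right region of the edge leaving `v` on the underpass -/
def uR (v : V) : D.Region := D.region (v, if D.pos v then .front else .right)

theorem region_eq_of_sameSide {c d : V × Corner} (h : D.SameSide c d) :
    D.region c = D.region d := Quotient.sound (Relation.EqvGen.rel _ _ h)

theorem oL_eq (v : V) :
    D.oL v = D.region (D.overNext v, if D.pos (D.overNext v) then .back else .left) :=
  D.region_eq_of_sameSide (.overLeft v)
theorem oR_eq (v : V) :
    D.oR v = D.region (D.overNext v, if D.pos (D.overNext v) then .right else .back) :=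
  D.region_eq_of_sameSide (.overRight v)
theorem uL_eq (v : V) :
    D.uL v = D.region (D.underNext v, if D.pos (D.underNext v) then .left else .back) :=
  D.region_eq_of_sameSide (.underLeft v)
theorem uR_eq (v : V) :
    D.uR v = D.region (D.underNext v, if D.pos (D.underNext v) then .back else .right) :=
  D.region_eq_of_sameSide (.underRight v)

theorem oL_symm (v : V) :
    D.oL (D.overNext.symm v) = D.region (v, if D.pos v then .back else .left) := by
  rw [oL_eq, Equiv.apply_symm_apply]
theorem oR_symm (v : V) :
    D.oR (D.overNext.symm v) = D.region (v, if D.pos v then .right else .back) := by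
  rw [oR_eq, Equiv.apply_symm_apply]
theorem uL_symm (v : V) :
    D.uL (D.underNext.symm v) = D.region (v, if D.pos v then .left else .back) := by
  rw [uL_eq, Equiv.apply_symm_apply]
theorem uR_symm (v : V) :
    D.uR (D.underNext.symm v) = D.region (v, if D.pos v then .back else .right) := by
  rw [uR_eq, Equiv.apply_symm_apply]

variable (K : Type) [Field K]

/-- differences of a function on the regions over the edges -/
def d0 : (D.Region → K) →ₗ[K] (V ⊕ V → K) where
  toFun r := Sum.elim (fun v => r (D.oL v) - r (D.oR v)) (fun v => r (D.uL v) - r (D.uR v))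
  map_add' r s := by
    ext x; rcases x with v | v <;> simp <;> ring
  map_smul' c r := by
    ext x; rcases x with v | v <;> simp <;> ring

/-- outgoing minus incoming flow at the crossings -/
def d1 : (V ⊕ V → K) →ₗ[K] (V → K) where
  toFun g v := g (.inl v) + g (.inr v) - g (.inl (D.overNext.symm v))
    - g (.inr (D.underNext.symm v))
  map_add' r s := by ext v; simp; ring
  map_smul' c r := by ext v; simp; ring

theorem d1_d0 (r : D.Region → K) : D.d1 K (D.d0 K r) = 0 := by
  ext v
  simp only [d1, d0, LinearMap.coe_mk, AddHom.coe_mk, Sum.elim_inl, Sum.elim_inr, oL_symm,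
    oR_symm, uL_symm, uR_symm, Pi.zero_apply]
  simp only [oL, oR, uL, uR]
  by_cases h : D.pos v <;> simp [h]

variable {D K}

theorem ker_d0 (hc : D.Connected) (r : D.Region → K) (hr : D.d0 K r = 0) (c c' : V × Corner) :
    r (D.region c) = r (D.region c') := by
  have ho : ∀ v, r (D.oL v) = r (D.oR v) := fun v => by
    have := congrFun hr (.inl v)
    simp only [d0, LinearMap.coe_mk, AddHom.coe_mk, Sum.elim_inl, Pi.zero_apply] at this
    exact sub_eq_zero.mp this
  have hu : ∀ v, r (D.uL v) = r (D.uR v) := fun v => by
    have := congrFun hr (.inr v)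
    simp only [d0, LinearMap.coe_mk, AddHom.coe_mk, Sum.elim_inr, Pi.zero_apply] at this
    exact sub_eq_zero.mp this
  have h4 : ∀ (v : V) (x : Corner), r (D.region (v, x)) = r (D.region (v, .front)) := by
    intro v x
    have h1 := ho v
    have h2 := hu v
    have h3 := ho (D.overNext.symm v)
    have h5 := hu (D.underNext.symm v)
    rw [oL_symm, oR_symm] at h3
    rw [uL_symm, uR_symm] at h5
    simp only [oL, oR, uL, uR] at h1 h2
    by_cases h : D.pos v <;> simp only [h, if_true, if_false, Bool.false_eq_true] at h1 h2 h3 h5 <;>
      cases x <;> simp_all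
  obtain ⟨v, x⟩ := c
  obtain ⟨w, y⟩ := c'
  rw [h4 v x, h4 w y]
  have hS := hc {u | r (D.region (u, .front)) = r (D.region (v, .front))} ⟨v, rfl⟩ (by
    intro u hu'
    have hu2 : r (D.region (u, .front)) = r (D.region (v, .front)) := hu'
    constructor
    · show r (D.region (D.overNext u, .front)) = r (D.region (v, .front))
      have h1 := congrArg r (D.oL_eq u)
      rw [h4 (D.overNext u), oL, h4 u] at h1
      rw [← h1, hu2]
    · show r (D.region (D.underNext u, .front)) = r (D.region (v, .front))
      have h1 := congrArg r (D.uL_eq u)
      rw [h4 (D.underNext u), uL, h4 u] at h1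
      rw [← h1, hu2])
  have hw : w ∈ {u | r (D.region (u, .front)) = r (D.region (v, .front))} := by
    rw [hS]; exact Set.mem_univ w
  exact hw.symm

theorem range_d1_sup [Finite V] (hc : D.Connected) (v0 : V) [DecidableEq V] :
    LinearMap.range (D.d1 K) ⊔ Submodule.span K {(Pi.single v0 1 : V → K)} = ⊤ := by
  have hS := hc {u | (Pi.single u 1 : V → K) ∈
    LinearMap.range (D.d1 K) ⊔ Submodule.span K {(Pi.single v0 1 : V → K)}}
    ⟨v0, Submodule.mem_sup_right (Submodule.mem_span_singleton_self _)⟩ (by
      intro u hu
      have hu2 : (Pi.single u 1 : V → K) ∈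
        LinearMap.range (D.d1 K) ⊔ Submodule.span K {(Pi.single v0 1 : V → K)} := hu
      constructor
      · show (Pi.single (D.overNext u) 1 : V → K) ∈
          LinearMap.range (D.d1 K) ⊔ Submodule.span K {(Pi.single v0 1 : V → K)}
        have h1 : (Pi.single (D.overNext u) 1 : V → K) =
          Pi.single u 1 - D.d1 K (Pi.single (.inl u) 1) := by
          ext w
          simp only [d1, LinearMap.coe_mk, AddHom.coe_mk, Pi.sub_apply, Pi.single_apply,
            Sum.inl.injEq, reduceCtorEq, if_false]
          have e : (D.overNext.symm w = u) ↔ (w = D.overNext u) := by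
            rw [Equiv.symm_apply_eq]
          simp only [e]
          ring
        rw [h1]
        exact Submodule.sub_mem _ hu2 (Submodule.mem_sup_left ⟨_, rfl⟩)
      · show (Pi.single (D.underNext u) 1 : V → K) ∈
          LinearMap.range (D.d1 K) ⊔ Submodule.span K {(Pi.single v0 1 : V → K)}
        have h1 : (Pi.single (D.underNext u) 1 : V → K) =
          Pi.single u 1 - D.d1 K (Pi.single (.inr u) 1) := by
          ext w
          simp only [d1, LinearMap.coe_mk, AddHom.coe_mk, Pi.sub_apply, Pi.single_apply,
            Sum.inr.injEq, reduceCtorEq, if_false]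
          have e : (D.underNext.symm w = u) ↔ (w = D.underNext u) := by
            rw [Equiv.symm_apply_eq]
          simp only [e]
          ring
        rw [h1]
        exact Submodule.sub_mem _ hu2 (Submodule.mem_sup_left ⟨_, rfl⟩))
  cases nonempty_fintype V
  rw [eq_top_iff]
  intro g _
  rw [pi_eq_sum_univ' g]
  refine Submodule.sum_mem _ fun u _ => Submodule.smul_mem _ _ ?_
  have hu : u ∈ {u | (Pi.single u 1 : V → K) ∈
    LinearMap.range (D.d1 K) ⊔ Submodule.span K {(Pi.single v0 1 : V → K)}} := by
    rw [hS]; exact Set.mem_univ u
  have hu2 : (Pi.single u 1 : V → K) ∈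
    LinearMap.range (D.d1 K) ⊔ Submodule.span K {(Pi.single v0 1 : V → K)} := hu
  convert hu2 using 1

theorem exact [Finite V] [Nonempty V] (hc : D.Connected) (hp : D.Planar) (g : V ⊕ V → K)
    (hg : D.d1 K g = 0) : ∃ r : D.Region → K, D.d0 K r = g := by
  classical
  cases nonempty_fintype V
  have : Finite D.Region := Quotient.finite _
  cases nonempty_fintype D.Region
  have hp2 : Fintype.card D.Region = Fintype.card V + 2 := by
    have := hp
    rwa [Planar, Nat.card_eq_fintype_card, Nat.card_eq_fintype_card] at this
  have v0 : V := Classical.arbitrary V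
  have h1 : Module.finrank K (LinearMap.range (D.d0 K)) +
      Module.finrank K (LinearMap.ker (D.d0 K)) = Fintype.card D.Region := by
    rw [LinearMap.finrank_range_add_finrank_ker, Module.finrank_fintype_fun_eq_card]
  have h2 : Module.finrank K (LinearMap.range (D.d1 K)) +
      Module.finrank K (LinearMap.ker (D.d1 K)) = 2 * Fintype.card V := by
    rw [LinearMap.finrank_range_add_finrank_ker, Module.finrank_fintype_fun_eq_card,
      Fintype.card_sum]
    ring
  have h3 : Module.finrank K (LinearMap.ker (D.d0 K)) ≤ 1 := by
    have hle : LinearMap.ker (D.d0 K) ≤ Submodule.span K {(fun _ => 1 : D.Region → K)} := by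
      intro r hr
      rw [Submodule.mem_span_singleton]
      refine ⟨r (D.region (v0, .front)), ?_⟩
      ext x
      obtain ⟨c, rfl⟩ : ∃ c, D.region c = x := Quotient.exists_rep x
      simp only [Pi.smul_apply, smul_eq_mul, mul_one]
      exact ker_d0 hc r hr _ _
    exact (Submodule.finrank_mono hle).trans ((finrank_span_le_card _).trans (by simp))
  have h4 : Fintype.card V ≤ Module.finrank K (LinearMap.range (D.d1 K)) + 1 := by
    have e := range_d1_sup (K := K) hc v0
    have h5 := Submodule.finrank_add_le_finrank_add_finrank (LinearMap.range (D.d1 K))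
      (Submodule.span K {(Pi.single v0 1 : V → K)})
    rw [e, finrank_top, Module.finrank_fintype_fun_eq_card] at h5
    have h6 : Module.finrank K (Submodule.span K {(Pi.single v0 1 : V → K)}) ≤ 1 :=
      (finrank_span_le_card _).trans (by simp)
    omega
  have h7 : LinearMap.range (D.d0 K) ≤ LinearMap.ker (D.d1 K) := by
    rintro _ ⟨r, rfl⟩
    exact D.d1_d0 K r
  have h8 : LinearMap.range (D.d0 K) = LinearMap.ker (D.d1 K) := by
    apply Submodule.eq_of_le_of_finrank_le h7
    omega
  have h9 : g ∈ LinearMap.range (D.d0 K) := by rw [h8]; exact hg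
  exact h9

end AltDiagram

end Pool.Agent.Helper36.SC
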