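import Pool.Agent.Helper36.SC.Planar

/-!
Checkerboard colouring, index function, and region potentials of a solution of the
Wirtinger relations.
-/

namespace Pool.Agent.Helper36.SC

namespace AltDiagram

variable {V : Type} (D : AltDiagram V)

/-- colour of a corner -/
def cCol (c : V × Corner) : Bool :=
  match c.2 with
  | .front => D.pos c.1
  | .back => D.pos c.1
  | .left => !D.pos c.1
  | .right => !D.pos c.1

theorem cCol_sameSide {c d : V × Corner} (h : D.SameSide c d) : D.cCol c = D.cCol d := by
  cases h with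
  | overLeft v =>
    by_cases h1 : D.pos v <;> by_cases h2 : D.pos (D.overNext v) <;> simp [cCol, h1, h2]
  | overRight v =>
    by_cases h1 : D.pos v <;> by_cases h2 : D.pos (D.overNext v) <;> simp [cCol, h1, h2]
  | underLeft v =>
    by_cases h1 : D.pos v <;> by_cases h2 : D.pos (D.underNext v) <;> simp [cCol, h1, h2]
  | underRight v =>
    by_cases h1 : D.pos v <;> by_cases h2 : D.pos (D.underNext v) <;> simp [cCol, h1, h2]

theorem cCol_eqv {c d : V × Corner} (h : Relation.EqvGen D.SameSide c d) :
    D.cCol c = D.cCol d := by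
  induction h with
  | rel _ _ h' => exact D.cCol_sameSide h'
  | refl _ => rfl
  | symm _ _ _ ih => exact ih.symm
  | trans _ _ _ _ _ ih1 ih2 => exact ih1.trans ih2

/-- colour of a region -/
def col (x : D.Region) : Bool :=
  Quotient.lift (s := D.regionSetoid) D.cCol (fun _ _ h => D.cCol_eqv h) x

theorem col_region (c : V × Corner) : D.col (D.region c) = D.cCol c := rfl

/-- front of `v` and back of `w` in one region: same sign -/
theorem pos_eq_of_front_back {v w : V} (h : D.region (v, .front) = D.region (w, .back)) :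
    D.pos v = D.pos w := by
  have := congrArg D.col h
  simpa [col_region, cCol] using this

variable {D}

/-- the index function, exponentiated -/
theorem exists_index [Finite V] [Nonempty V] (hc : D.Connected) (hp : D.Planar) {t : ℂ}
    (ht : t ≠ 0) : ∃ s : D.Region → ℂ, (∀ x, s x ≠ 0) ∧ (∀ v, s (D.oL v) = -t * s (D.oR v)) ∧
      ∀ v, s (D.uL v) = -t * s (D.uR v) := by
  obtain ⟨r, hr⟩ := exact (K := ℂ) hc hp (fun _ => 1) (by
    ext v
    simp [d1])
  have hexp : Complex.exp (Complex.log (-t)) = -t := Complex.exp_log (neg_ne_zero.mpr ht)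
  refine ⟨fun x => Complex.exp (r x * Complex.log (-t)), fun x => Complex.exp_ne_zero _,
    fun v => ?_, fun v => ?_⟩
  · have h1 := congrFun hr (.inl v)
    simp only [d0, LinearMap.coe_mk, AddHom.coe_mk, Sum.elim_inl] at h1
    have h2 : r (D.oL v) = 1 + r (D.oR v) := by linear_combination h1
    show Complex.exp (r (D.oL v) * Complex.log (-t)) = -t * Complex.exp (r (D.oR v) *
      Complex.log (-t))
    rw [h2, add_mul, one_mul, Complex.exp_add, hexp]
  · have h1 := congrFun hr (.inr v)
    simp only [d0, LinearMap.coe_mk, AddHom.coe_mk, Sum.elim_inr] at h1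
    have h2 : r (D.uL v) = 1 + r (D.uR v) := by linear_combination h1
    show Complex.exp (r (D.uL v) * Complex.log (-t)) = -t * Complex.exp (r (D.uR v) *
      Complex.log (-t))
    rw [h2, add_mul, one_mul, Complex.exp_add, hexp]

/-- the Wirtinger relation at `v`, at the parameter `-t` -/
def Rel (D : AltDiagram V) (t : ℂ) (a : V → ℂ) (v : V) : Prop :=
  (1 + t) * a v - (if D.pos v then 1 else t) * a (D.underNext v)
    - (if D.pos v then t else 1) * a (D.overNext.symm v) = 0

theorem exists_potential [Finite V] (hc : D.Connected) (hp : D.Planar) {t : ℂ}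
    (ht : t ≠ 0) (s : D.Region → ℂ) (hs0 : ∀ x, s x ≠ 0)
    (hso : ∀ v, s (D.oL v) = -t * s (D.oR v)) (hsu : ∀ v, s (D.uL v) = -t * s (D.uR v))
    (a : V → ℂ) (u : V) (ha : ∀ v, v ≠ u → D.Rel t a v) :
    ∃ r : D.Region → ℂ, (∀ v, r (D.oL v) + t * r (D.oR v) = a v) ∧
      ∀ v, r (D.uL v) + t * r (D.uR v) = a (D.underNext v) := by
  classical
  cases nonempty_fintype V
  have : Nonempty V := ⟨u⟩
  set g : V ⊕ V → ℂ := Sum.elim (fun v => a v / s (D.oL v))
    (fun v => a (D.underNext v) / s (D.uL v)) with hg
  have hloc : ∀ v, v ≠ u → D.d1 ℂ g v = 0 := by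
    intro v hv
    have h1 := ha v hv
    have e1 := hso v
    have e2 := hsu v
    have e3 := hso (D.overNext.symm v)
    have e4 := hsu (D.underNext.symm v)
    rw [oL_symm, oR_symm] at e3
    rw [uL_symm, uR_symm] at e4
    simp only [hg, d1, LinearMap.coe_mk, AddHom.coe_mk, Sum.elim_inl, Sum.elim_inr,
      Equiv.apply_symm_apply, oL_symm, uL_symm]
    simp only [oL, oR, uL, uR] at e1 e2 ⊢
    unfold Rel at h1
    have n1 := hs0 (D.region (v, .front))
    have n2 := hs0 (D.region (v, .left))
    have n3 := hs0 (D.region (v, .back))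
    have n4 := hs0 (D.region (v, .right))
    by_cases h : D.pos v
    · simp only [h, if_true] at h1 e1 e2 e3 e4 ⊢
      have e5 : s (D.region (v, .back)) = s (D.region (v, .front)) := by
        rw [e1, e3]
      rw [e2, e5]
      field_simp
      linear_combination h1
    · simp only [h, if_false, Bool.false_eq_true] at h1 e1 e2 e3 e4 ⊢
      have e5 : s (D.region (v, .back)) = s (D.region (v, .front)) := by
        rw [e2, e4]
      rw [e1, e5]
      field_simp
      linear_combination (-1) * h1
  have hsum : ∑ v, D.d1 ℂ g v = 0 := by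
    simp only [d1, LinearMap.coe_mk, AddHom.coe_mk, Finset.sum_sub_distrib,
      Finset.sum_add_distrib]
    rw [Equiv.sum_comp D.overNext.symm (fun v => g (.inl v)),
      Equiv.sum_comp D.underNext.symm (fun v => g (.inr v))]
    ring
  have hd1 : D.d1 ℂ g = 0 := by
    ext v
    by_cases hv : v = u
    · subst hv
      have h2 := Finset.sum_eq_single v (s := Finset.univ) (f := fun w => D.d1 ℂ g w)
        (fun w _ hw => hloc w hw) (fun h => absurd (Finset.mem_univ v) h)
      rw [hsum] at h2
      exact h2.symm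
    · exact hloc v hv
  obtain ⟨ρ, hρ⟩ := exact hc hp g hd1
  refine ⟨fun x => s x * ρ x, fun v => ?_, fun v => ?_⟩
  · have h1 := congrFun hρ (.inl v)
    simp only [hg, d0, LinearMap.coe_mk, AddHom.coe_mk, Sum.elim_inl] at h1
    have n1 := hs0 (D.oL v)
    rw [eq_div_iff n1] at h1
    show s (D.oL v) * ρ (D.oL v) + t * (s (D.oR v) * ρ (D.oR v)) = a v
    linear_combination h1 + ρ (D.oR v) * hso v
  · have h1 := congrFun hρ (.inr v)
    simp only [hg, d0, LinearMap.coe_mk, AddHom.coe_mk, Sum.elim_inr] at h1
    have n1 := hs0 (D.uL v)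
    rw [eq_div_iff n1] at h1
    show s (D.uL v) * ρ (D.uL v) + t * (s (D.uR v) * ρ (D.uR v)) = a (D.underNext v)
    linear_combination h1 + ρ (D.uR v) * hsu v

end AltDiagram

end Pool.Agent.Helper36.SC
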