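import Pool.Agent.Helper36.SC.Ident
import Pool.Agent.Helper36.SC.Cyc
import Pool.Agent.Helper36.SC.Arg

/-!
The sector theorem.
-/

namespace Pool.Agent.Helper36.SC

open ComplexConjugate Polynomial

namespace AltDiagram

variable {V : Type} {D : AltDiagram V}
variable {t : ℂ} {s : D.Region → ℂ} {a : V → ℂ} {r : D.Region → ℂ}

/-- if all potentials agree at the front and the back, the arc values are constant -/
theorem arc_const (hc : D.Connected) (hr : Pot D t a r)
    (h : ∀ v, r (D.region (v, .front)) = r (D.region (v, .back))) (u v : V) : a v = a u := by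
  have hS := hc {w | a w = a u} ⟨u, rfl⟩ (by
    intro w hw
    have hw2 : a w = a u := hw
    constructor
    · show a (D.overNext w) = a u
      rw [← hw2, ← hr.o w, ← hr.o (D.overNext w), D.oL_eq w, D.oR_eq w]
      unfold oL oR
      by_cases h1 : D.pos (D.overNext w)
      · simp only [h1, if_true, h]
      · simp only [h1, if_false, Bool.false_eq_true, h]
    · show a (D.underNext w) = a u
      have h2 := hr.u (D.underNext.symm w)
      rw [uL_symm, uR_symm, Equiv.apply_symm_apply] at h2
      rw [← hw2, ← h2, ← hr.u w]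
      unfold uL uR
      by_cases h1 : D.pos w
      · simp only [h1, if_true, h]
      · simp only [h1, if_false, Bool.false_eq_true, h])
  have : v ∈ {w | a w = a u} := by rw [hS]; exact Set.mem_univ v
  exact this

theorem Index.cp_nonneg (hs : Index D t s) (v : V) : 0 ≤ cp s v := by
  unfold cp
  split_ifs
  · exact (hs.wt_pos v).le
  · exact le_rfl

theorem Index.cn_nonneg (hs : Index D t s) (v : V) : 0 ≤ cn s v := by
  unfold cn
  split_ifs
  · exact le_rfl
  · exact (hs.wt_pos v).le

variable [Fintype V]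

theorem form_inSector (ψ : Equiv.Perm V) (m : ℕ) (hm : 2 ≤ m)
    (hψ : ∀ v, ∃ k, 0 < k ∧ k ≤ m ∧ (ψ ^ k) v = v) (c : V → ℝ) (hc0 : ∀ v, 0 ≤ c v)
    (hc : ∀ v, c (ψ v) = c v) (z : V → ℂ) : InSector (Real.pi / m) (form c z ψ) := by
  refine ⟨?_, ?_, ?_⟩
  · unfold form
    rw [form_re ψ c hc z]
    exact Finset.sum_nonneg fun v _ => mul_nonneg (hc0 v) (by positivity)
  · apply perm_sector ψ m hm hψ c hc0 hc z
    · exact Complex.norm_exp_ofReal_mul_I _
    · exact Complex.exp_ofReal_mul_I_re _
  · apply perm_sector ψ m hm hψ c hc0 hc z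
    · have := Complex.norm_exp_ofReal_mul_I (-(Real.pi / m))
      push_cast at this ⊢
      exact this
    · have := Complex.exp_ofReal_mul_I_re (-(Real.pi / m))
      rw [Real.cos_neg] at this
      push_cast at this ⊢
      exact this

theorem sector_of_pot (ht : t ≠ 0) (hs : Index D t s) (hr : Pot D t a r) (hc : D.Connected)
    (ψ : Equiv.Perm V) (hψ : ∀ v, D.region (v, .front) = D.region (ψ v, .back))
    (m : ℕ) (hm : 2 ≤ m) (hk : ∀ v, ∃ k, 0 < k ∧ k ≤ m ∧ (ψ ^ k) v = v)
    (hna : ∃ u v, a u ≠ a v) : |(-t).arg| ≤ Real.pi - 2 * (Real.pi / m) := by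
  have hid := main_identity ht hs hr ψ hψ
  have hm0 : (0 : ℝ) < m := by positivity
  have hm2 : (2 : ℝ) ≤ m := by exact_mod_cast hm
  have hP1 := form_inSector ψ m hm hk (cp s) hs.cp_nonneg (fun v => hs.cp_psi (hψ v)) (zb r)
  have hN1 := form_inSector ψ m hm hk (cn s) hs.cn_nonneg (fun v => hs.cn_psi (hψ v)) (zb r)
  set Ep := form (cp s) (zb r) ψ with hEp
  set En := form (cn s) (zb r) ψ with hEn
  have hP : InSector (Real.pi / m) (conj Ep + t * conj t * En) := by
    refine hP1.conj.add ?_
    rw [Complex.mul_conj]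
    exact hN1.smul (Complex.normSq_nonneg t)
  have hQ : InSector (Real.pi / m) (Ep + conj En) := hP1.add hN1.conj
  have hφ0 : 0 < Real.pi / m := by positivity
  have hφ : Real.pi / m ≤ Real.pi / 2 := by
    apply div_le_div_of_nonneg_left Real.pi_pos.le two_pos hm2
  by_cases hQ0 : Ep + conj En = 0
  · exfalso
    have hre : Ep.re + En.re = 0 := by
      have := congrArg Complex.re hQ0
      simpa using this
    have h1 : Ep.re = 0 := by linarith [hP1.1, hN1.1]
    have h2 : En.re = 0 := by linarith [hP1.1, hN1.1]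
    rw [hEp, form, form_re ψ _ (fun v => hs.cp_psi (hψ v))] at h1
    rw [hEn, form, form_re ψ _ (fun v => hs.cn_psi (hψ v))] at h2
    rw [Finset.sum_eq_zero_iff_of_nonneg
      (fun v _ => mul_nonneg (hs.cp_nonneg v) (by positivity))] at h1
    rw [Finset.sum_eq_zero_iff_of_nonneg
      (fun v _ => mul_nonneg (hs.cn_nonneg v) (by positivity))] at h2
    have h3 : ∀ v, r (D.region (v, .front)) = r (D.region (v, .back)) := by
      intro v
      have g1 := h1 v (Finset.mem_univ v)
      have g2 := h2 v (Finset.mem_univ v)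
      have h4 : ‖zb r v - zb r (ψ v)‖ ^ 2 / 2 = 0 := by
        unfold cp at g1
        unfold cn at g2
        by_cases hv : D.pos v
        · simp only [hv, if_true] at g1
          exact (mul_eq_zero.mp g1).resolve_left (hs.wt_pos v).ne'
        · simp only [hv, if_false, Bool.false_eq_true] at g2
          exact (mul_eq_zero.mp g2).resolve_left (hs.wt_pos v).ne'
      have h5 : zb r v - zb r (ψ v) = 0 := by
        have : ‖zb r v - zb r (ψ v)‖ ^ 2 = 0 := by linarith
        exact norm_eq_zero.mp (pow_eq_zero_iff (two_ne_zero) |>.mp this)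
      rw [hψ v]
      exact (sub_eq_zero.mp h5).symm
    obtain ⟨u, v, huv⟩ := hna
    exact huv (arc_const hc hr h3 v u)
  · apply arg_bound hφ0 hφ hP hQ hQ0 (neg_ne_zero.mpr ht)
    rw [map_neg]
    linear_combination hid

variable [DecidableEq V]

theorem aeval_alexander (u : V) (x : ℂ) :
    aeval x (D.alexander u) =
      ((D.alexanderMatrix.submatrix (Subtype.val : {v : V // v ≠ u} → V)
        (Subtype.val : {v : V // v ≠ u} → V)).map (aeval x)).det := by
  rw [alexander]
  exact AlgHom.map_det (aeval x : ℤ[X] →ₐ[ℤ] ℂ) _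

theorem exists_arcs (u : V) (x : ℂ) (h : aeval x (D.alexander u) = 0) :
    ∃ a : V → ℂ, a u = 0 ∧ (∃ v, a v ≠ 0) ∧ ∀ v, v ≠ u → D.Rel (-x) a v := by
  rw [aeval_alexander] at h
  obtain ⟨b, hb0, hb⟩ := Matrix.exists_mulVec_eq_zero_iff.mpr h
  refine ⟨fun v => if hv : v ≠ u then b ⟨v, hv⟩ else 0, by simp, ?_, ?_⟩
  · by_contra hcon
    push Not at hcon
    apply hb0
    ext ⟨v, hv⟩
    have := hcon v
    simpa [hv] using this
  · intro v hv
    have h1 := congrFun hb ⟨v, hv⟩
    set a : V → ℂ := fun v => if hv : v ≠ u then b ⟨v, hv⟩ else 0 with ha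
    have hau : a u = 0 := by simp [ha]
    have h2 : ∑ w : V, aeval x (D.alexanderMatrix v w) * a w = 0 := by
      rw [← Fintype.sum_subtype_add_sum_subtype (fun w => w ≠ u)]
      have h3 : ∑ w : {w : V // ¬ w ≠ u}, aeval x (D.alexanderMatrix v w) * a w = 0 := by
        refine Finset.sum_eq_zero fun w _ => ?_
        have : (w : V) = u := not_not.mp w.2
        rw [this, hau, mul_zero]
      rw [h3, add_zero]
      have h4 : ∑ w : {w : V // w ≠ u}, aeval x (D.alexanderMatrix v w) * a w =
          ∑ w : {w : V // w ≠ u}, aeval x (D.alexanderMatrix v w) * b w := by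
        refine Finset.sum_congr rfl fun w _ => ?_
        congr 1
        simp [ha, w.2]
      rw [h4]
      simpa [Matrix.mulVec, dotProduct] using h1
    unfold Rel
    have h5 : ∀ w, aeval x (D.alexanderMatrix v w) * a w =
        (1 - x) * (if w = v then a w else 0)
        - (if D.pos v then 1 else -x) * (if w = D.underNext v then a w else 0)
        + (if D.pos v then x else -1) * (if w = D.overNext.symm v then a w else 0) := by
      intro w
      simp only [alexanderMatrix, Matrix.of_apply, map_add, map_sub, map_mul, map_one, aeval_X]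
      split_ifs <;> simp <;> ring
    simp only [h5, Finset.sum_add_distrib, Finset.sum_sub_distrib, ← Finset.mul_sum,
      Finset.sum_ite_eq', Finset.mem_univ, if_true] at h2
    by_cases hp : D.pos v
    · simp only [hp, if_true] at h2 ⊢
      linear_combination h2
    · simp only [hp, if_false, Bool.false_eq_true] at h2 ⊢
      linear_combination h2

theorem sector (hc : D.Connected) (hp : D.Planar)
    (ψ : Equiv.Perm V) (hψ : ∀ v, D.region (v, .front) = D.region (ψ v, .back))
    (m : ℕ) (hm : 2 ≤ m) (hk : ∀ v, ∃ k, 0 < k ∧ k ≤ m ∧ (ψ ^ k) v = v)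
    (u : V) (x : ℂ) (hx0 : x ≠ 0) (hx : aeval x (D.alexander u) = 0) :
    |x.arg| ≤ Real.pi - 2 * (Real.pi / m) := by
  obtain ⟨a, hau, ⟨v, hv⟩, ha⟩ := exists_arcs u x hx
  have : Nonempty V := ⟨u⟩
  have ht : (-x) ≠ 0 := neg_ne_zero.mpr hx0
  obtain ⟨s, hs0, hso, hsu⟩ := exists_index hc hp ht
  obtain ⟨r, hr1, hr2⟩ := exists_potential hc hp ht s hs0 hso hsu a u ha
  have h := sector_of_pot ht ⟨hs0, hso, hsu⟩ ⟨hr1, hr2⟩ hc ψ hψ m hm hk
    ⟨v, u, by rw [hau]; exact hv⟩
  rwa [neg_neg] at h

end AltDiagram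

end Pool.Agent.Helper36.SC
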